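import Pool.Agent.U688.Final

/-!
# Codimensions of matrix algebras: bounds and the limit
-/

set_option autoImplicit false

namespace Pool.Agent.U688

open Finset Matrix

section Lists

lemma exists_map_some {ι : Type} (l : List (Option ι)) (h : none ∉ l) : ∃ l' : List ι, l = l'.map some := by
  refine ⟨l.filterMap id, ?_⟩
  have : ∀ o ∈ l, o ≠ none := fun o ho h' => h (h' ▸ ho)
  clear h
  induction l with
  | nil => rfl
  | cons o l ih2 =>
    have ho := this o List.mem_cons_self
    obtain ⟨a, rfl⟩ := Option.ne_none_iff_exists'.mp ho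
    simp only [List.filterMap_cons, id, List.map_cons]
    congr 1
    exact ih2 (fun o ho => this o (List.mem_cons_of_mem _ ho))

lemma full_eq_ofFn {n : ℕ} (l : List (Fin n)) (hl : Full l) : ∃ σ : Equiv.Perm (Fin n), l = List.ofFn σ := by
  have hlen : l.length = n := by
    have h1 : l.toFinset = Finset.univ := by
      ext i; simp [hl.2 i]
    have h2 := List.toFinset_card_of_nodup hl.1
    rw [h1] at h2
    simpa using h2.symm
  let f : Fin n → Fin n := fun i => l.get (Fin.cast hlen.symm i)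
  have hf : Function.Injective f := by
    intro i j hij
    have := (List.nodup_iff_injective_get.mp hl.1) hij
    simpa using this
  refine ⟨Equiv.ofBijective f (Finite.injective_iff_bijective.mp hf), ?_⟩
  apply List.ext_getElem
  · simp [hlen]
  · intro i h1 h2
    simp [f]

end Lists

section Real

variable {k : ℕ}

/-- the space of multilinear polynomial functions -/
noncomputable def VV (k n : ℕ) : Submodule ℝ ((Fin n → Fin k × Fin k) → Matrix (Fin k) (Fin k) ℝ) :=
  Submodule.span ℝ (Set.range (fun σ : Equiv.Perm (Fin n) => mw k ℝ σ))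

instance (k n : ℕ) : FiniteDimensional ℝ (VV k n) :=
  FiniteDimensional.span_of_finite ℝ (Set.finite_range _)

/-- pairing with a new matrix -/
noncomputable def Phi (k n : ℕ) : ((Fin n → Fin k × Fin k) → Matrix (Fin k) (Fin k) ℝ) →ₗ[ℝ]
    ((Option (Fin n) → Fin k × Fin k) → ℝ) where
  toFun h := fun W => (h (W ∘ some) * EE ℝ (W none)).trace
  map_add' h h' := by funext W; simp [Matrix.add_mul, Matrix.trace_add]
  map_smul' c h := by funext W; simp [Matrix.trace_smul]

lemma Phi_inj (k n : ℕ) : Function.Injective (Phi k n) := by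
  rw [← LinearMap.ker_eq_bot, LinearMap.ker_eq_bot']
  intro h hh
  funext w
  ext a b
  have h1 := congrFun hh (fun o => Option.elim o (b, a) w)
  have h2 : (h w * EE ℝ (b, a)).trace = 0 := h1
  unfold EE at h2
  rw [Matrix.trace_mul_single] at h2
  simpa using h2

lemma Phi_mw {n : ℕ} (σ : Equiv.Perm (Fin n)) :
    Phi k n (mw k ℝ σ) = tm ℝ ((List.ofFn (fun i => some (σ i))) ++ [none]) := by
  funext W
  show (mw k ℝ σ (W ∘ some) * EE ℝ (W none)).trace = _
  unfold tm mw
  rw [List.map_append, List.prod_append, List.map_ofFn]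
  simp only [List.map_cons, List.map_nil, List.prod_cons, List.prod_nil, mul_one]
  rfl

lemma Phi_VV (k n : ℕ) : (VV k n).map (Phi k n) = CC (Fin k) ℝ (Option (Fin n)) := by
  apply le_antisymm
  · unfold VV
    rw [Submodule.map_span, Submodule.span_le]
    rintro _ ⟨_, ⟨σ, rfl⟩, rfl⟩
    apply Submodule.subset_span
    refine ⟨_, ⟨?_, ?_⟩, Phi_mw σ⟩
    · rw [List.nodup_append]
      refine ⟨?_, by simp, ?_⟩
      · rw [List.nodup_ofFn]
        intro i j h
        exact σ.injective (Option.some_injective _ h)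
      · intro a ha b hb hab
        subst hab
        rw [List.mem_singleton] at hb
        subst hb
        rw [List.mem_ofFn] at ha
        obtain ⟨i, hi⟩ := ha
        simp at hi
    · intro o
      rw [List.mem_append, List.mem_ofFn]
      rcases o with _ | j
      · right; simp
      · left; exact ⟨σ.symm j, by simp⟩
  · apply Submodule.span_le.mpr
    rintro _ ⟨l, hl, rfl⟩
    obtain ⟨l1, l2, rfl⟩ := List.append_of_mem (hl.2 none)
    have e1 : tm (κ := Fin k) ℝ (l1 ++ none :: l2) = tm ℝ ((l2 ++ l1) ++ [none]) := by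
      funext w
      have h1 : l1 ++ none :: l2 = (l1 ++ [none]) ++ l2 := by simp
      rw [h1, tm_rot, List.append_assoc]
    have hperm : (l1 ++ none :: l2).Perm ((l2 ++ l1) ++ [none]) := by
      have h1 : l1 ++ none :: l2 = (l1 ++ [none]) ++ l2 := by simp
      rw [h1, List.append_assoc l2]
      exact List.perm_append_comm
    have hfull : Full ((l2 ++ l1) ++ [none]) :=
      ⟨(hperm.nodup_iff).mp hl.1, fun i => (hperm.mem_iff).mp (hl.2 i)⟩
    rw [e1]
    generalize l2 ++ l1 = l at hfull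
    obtain ⟨hnd, hmem⟩ := hfull
    rw [List.nodup_append] at hnd
    have hnone : none ∉ l := fun h => hnd.2.2 none h none (by simp) rfl
    obtain ⟨l', rfl⟩ := exists_map_some l hnone
    have hl' : Full l' := by
      refine ⟨List.Nodup.of_map _ hnd.1, fun i => ?_⟩
      have := hmem (some i)
      simpa using this
    obtain ⟨σ, rfl⟩ := full_eq_ofFn l' hl'
    refine ⟨mw k ℝ σ, Submodule.subset_span ⟨σ, rfl⟩, ?_⟩
    rw [Phi_mw, List.map_ofFn]
    rfl

lemma finrank_VV (k n : ℕ) :
    Module.finrank ℝ (VV k n) = Module.finrank ℝ (CC (Fin k) ℝ (Option (Fin n))) := by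
  rw [← Phi_VV]
  exact (Submodule.equivMapOfInjective (Phi k n) (Phi_inj k n) (VV k n)).finrank_eq

lemma finrank_CC_congr {ι ι' : Type} (e : ι ≃ ι') :
    Module.finrank ℝ (CC (Fin k) ℝ ι) = Module.finrank ℝ (CC (Fin k) ℝ ι') := by
  let L : ((ι → Fin k × Fin k) → ℝ) ≃ₗ[ℝ] ((ι' → Fin k × Fin k) → ℝ) :=
    { ren ℝ e with
      invFun := ren ℝ e.symm
      left_inv := fun f => by
        funext w
        show f ((w ∘ e.symm) ∘ e) = f w
        congr 1; funext x; simp
      right_inv := fun f => by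
        funext w
        show f ((w ∘ e) ∘ e.symm) = f w
        congr 1; funext x; simp }
  have h : (CC (Fin k) ℝ ι).map L.toLinearMap = CC (Fin k) ℝ ι' := by
    apply le_antisymm
    · rintro _ ⟨f, hf, rfl⟩
      exact ren_CC e hf
    · intro f hf
      refine ⟨ren ℝ e.symm f, ren_CC e.symm hf, ?_⟩
      show L (L.symm f) = f
      exact L.apply_symm_apply f
  rw [← h]
  exact (LinearEquiv.finrank_map_eq L _).symm

/-- numbers -/
noncomputable def tt (k n : ℕ) : ℕ := Module.finrank ℝ (PW (Fin k) ℝ (Fin n))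

lemma cn_eq (k n : ℕ) : Module.finrank ℝ (VV k n) = Module.finrank ℝ (CC (Fin k) ℝ (Fin (n + 1))) := by
  rw [finrank_VV]
  exact finrank_CC_congr (finSuccEquiv n).symm

lemma cn_le (k n : ℕ) : Module.finrank ℝ (VV k n) ≤ tt k (n + 1) := by
  rw [cn_eq]
  exact Submodule.finrank_mono (CC_le_PW _)

lemma tt_le_II {k : ℕ} (hk : 1 ≤ k) : ∃ l : List (Fin (k * k)), ∀ n,
    tt k n ≤ Module.finrank ℝ (II (cap (Fin k) ℝ) (Fin n)) + av (k * k) l n := by
  have : Nonempty (Fin k) := ⟨⟨0, hk⟩⟩
  obtain ⟨l, hl⟩ := finrank_OO_le (κ := Fin k) (d := k * k) (by simp) (mem_PW_cap) (cap_ne_zero)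
  refine ⟨l, fun n => ?_⟩
  have h1 := finrank_PW_le (cap (Fin k) ℝ) (Fin n)
  have h2 := hl n
  unfold tt
  omega

/-- the map `L` on functions -/
noncomputable def Lp (k n : ℕ) : ((Fin n → Fin k × Fin k) → Matrix (Fin k) (Fin k) ℝ) →ₗ[ℝ]
    ((Fin n → Fin k × Fin k) → Matrix (Fin k) (Fin k) ℝ) :=
  LinearMap.compLeft (LL k ℝ) (Fin n → Fin k × Fin k)

/-- the number of proper central polynomials -/
noncomputable def dd (k n : ℕ) : ℕ := Module.finrank ℝ (LinearMap.ker ((Lp k n).domRestrict (VV k n)))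

lemma zn_add_dd (k n : ℕ) :
    Module.finrank ℝ (Submodule.span ℝ (Set.range (fun σ : Equiv.Perm (Fin n) =>
      fun w => LL k ℝ (mw k ℝ σ w)))) + dd k n = Module.finrank ℝ (VV k n) := by
  have h1 := LinearMap.finrank_range_add_finrank_ker ((Lp k n).domRestrict (VV k n))
  rw [LinearMap.range_domRestrict] at h1
  have h2 : Submodule.map (Lp k n) (VV k n) = Submodule.span ℝ (Set.range (fun σ : Equiv.Perm (Fin n) =>
      fun w => LL k ℝ (mw k ℝ σ w))) := by
    unfold VV
    rw [Submodule.map_span, ← Set.range_comp]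
    rfl
  rw [h2] at h1
  exact h1

lemma trw_mem {n : ℕ} {h : (Fin n → Fin k × Fin k) → Matrix (Fin k) (Fin k) ℝ} (hh : h ∈ VV k n) :
    (fun w => (h w).trace) ∈ PW (Fin k) ℝ (Fin n) := by
  let L : ((Fin n → Fin k × Fin k) → Matrix (Fin k) (Fin k) ℝ) →ₗ[ℝ] ((Fin n → Fin k × Fin k) → ℝ) :=
    LinearMap.compLeft (Matrix.traceLinearMap (Fin k) ℝ ℝ) _
  refine map_mem_of_span L ?_ hh
  rintro _ ⟨σ, rfl⟩
  apply CC_le_PW
  apply Submodule.subset_span
  refine ⟨List.ofFn σ, ⟨?_, ?_⟩, ?_⟩
  · rw [List.nodup_ofFn]; exact σ.injective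
  · intro i
    rw [List.mem_ofFn]
    exact ⟨σ.symm i, by simp⟩
  · funext w
    show (mw k ℝ σ w).trace = _
    unfold tm mw
    rw [List.map_ofFn]
    rfl

lemma dd_le {k : ℕ} (hk : 1 ≤ k) (n : ℕ) : dd k n ≤ tt k n := by
  have hk0 : (k : ℝ) ≠ 0 := by
    have : k ≠ 0 := by omega
    exact_mod_cast this
  let ψ : LinearMap.ker ((Lp k n).domRestrict (VV k n)) →ₗ[ℝ] PW (Fin k) ℝ (Fin n) :=
    { toFun := fun h => ⟨fun w => (h.1.1 w).trace, trw_mem h.1.2⟩
      map_add' := fun h h' => by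
        apply Subtype.ext; funext w
        show (h.1.1 w + h'.1.1 w).trace = (h.1.1 w).trace + (h'.1.1 w).trace
        exact Matrix.trace_add _ _
      map_smul' := fun c h => by
        apply Subtype.ext; funext w
        show (c • h.1.1 w).trace = c • (h.1.1 w).trace
        exact Matrix.trace_smul _ _ }
  apply LinearMap.finrank_le_finrank_of_injective (f := ψ)
  intro h h' hhh
  apply Subtype.ext
  apply Subtype.ext
  funext w
  have key : ∀ g : LinearMap.ker ((Lp k n).domRestrict (VV k n)),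
      g.1.1 w = ((k : ℝ)⁻¹ * (g.1.1 w).trace) • (1 : Matrix (Fin k) (Fin k) ℝ) := by
    intro g
    have h1 := g.2
    rw [LinearMap.mem_ker] at h1
    have h2 : LL k ℝ (g.1.1 w) = 0 := congrFun h1 w
    rw [LL_apply, sub_eq_zero] at h2
    rw [mul_smul, ← h2, smul_smul, inv_mul_cancel₀ hk0, one_smul]
  have h3 : (h.1.1 w).trace = (h'.1.1 w).trace :=
    congrFun (congrArg (fun x : PW (Fin k) ℝ (Fin n) => x.1) hhh) w
  rw [key h, key h', h3]

/-- scalar functions -/
def sc (k n : ℕ) : ((Fin n → Fin k × Fin k) → ℝ) →ₗ[ℝ]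
    ((Fin n → Fin k × Fin k) → Matrix (Fin k) (Fin k) ℝ) where
  toFun p := fun w => p w • 1
  map_add' p q := by funext w; simp [add_smul]
  map_smul' c p := by funext w; simp [mul_smul]

/-- `ι₀ ⊕ Option S ≃ Option ι` -/
def oe {ι₀ S ι : Type} (e : ι₀ ⊕ S ≃ ι) : ι₀ ⊕ Option S ≃ Option ι :=
  (oEq ι₀ S).symm.trans (Equiv.optionCongr e)

lemma sc_mem {k : ℕ} (hk : 1 ≤ k) {n : ℕ} {p : (Fin n → Fin k × Fin k) → ℝ}
    (hp : p ∈ II (cap (Fin k) ℝ) (Fin n)) : sc k n p ∈ VV k n := by
  have : Nonempty (Fin k) := ⟨⟨0, hk⟩⟩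
  refine map_mem_of_span (sc k n) ?_ hp
  rintro _ ⟨S, hS, e, τ, rfl⟩
  have h1 : Phi k n (sc k n (ren ℝ e (ten (cap (Fin k) ℝ) τ))) ∈ CC (Fin k) ℝ (Option (Fin n)) := by
    have h2 := ren_CC (oe e) (cap_conductor (κ := Fin k) (R := ℝ) (Option S) (Equiv.optionCongr τ))
    convert h2 using 1
    funext W
    show ((cap (Fin k) ℝ (((W ∘ some) ∘ e) ∘ Sum.inl) * ptw ℝ τ (((W ∘ some) ∘ e) ∘ Sum.inr)) •
      (1 : Matrix (Fin k) (Fin k) ℝ) * EE ℝ (W none)).trace =
      cap (Fin k) ℝ ((W ∘ oe e) ∘ Sum.inl) * ptw ℝ (Equiv.optionCongr τ) ((W ∘ oe e) ∘ Sum.inr)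
    have e1 : (W ∘ oe e) ∘ Sum.inl = ((W ∘ some) ∘ e) ∘ Sum.inl := by
      funext i; rfl
    have e2 : ((W ∘ oe e) ∘ Sum.inr) ∘ some = ((W ∘ some) ∘ e) ∘ Sum.inr := by
      funext i; rfl
    have e3 : ((W ∘ oe e) ∘ Sum.inr) none = W none := rfl
    rw [e1, ← e2, ← e3]
    generalize (W ∘ oe e) ∘ Sum.inr = v
    rw [smul_mul_assoc, one_mul, Matrix.trace_smul, smul_eq_mul, mul_assoc]
    congr 1
    by_cases hv : (v none).2 = (v none).1
    · have h3 : (EE ℝ (v none)).trace = 1 := by
        unfold EE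
        rw [hv, Matrix.trace_single_eq_same]
      rw [h3, mul_one]
      by_cases hc : ∀ i, ((v ∘ some) i).2 = ((v ∘ some) (τ i)).1
      · rw [ptw_eq_one hc, ptw_eq_one]
        intro o
        rcases o with _ | j
        · exact hv
        · exact hc j
      · push Not at hc
        obtain ⟨i, hi⟩ := hc
        rw [ptw_eq_zero i hi, ptw_eq_zero (some i)]
        exact hi
    · have h3 : (EE ℝ (v none)).trace = 0 := by
        unfold EE
        rw [Matrix.trace_single_eq_of_ne]
        exact fun h' => hv h'.symm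
      rw [h3, mul_zero, ptw_eq_zero none]
      exact hv
  rw [← Phi_VV] at h1
  obtain ⟨h, hh, heq⟩ := h1
  rw [← Phi_inj k n heq]
  exact hh

lemma II_le_dd {k : ℕ} (hk : 1 ≤ k) (n : ℕ) :
    Module.finrank ℝ (II (cap (Fin k) ℝ) (Fin n)) ≤ dd k n := by
  let ψ : II (cap (Fin k) ℝ) (Fin n) →ₗ[ℝ] LinearMap.ker ((Lp k n).domRestrict (VV k n)) :=
    { toFun := fun p => ⟨⟨sc k n p.1, sc_mem hk p.2⟩, by
        rw [LinearMap.mem_ker]
        funext w
        show LL k ℝ (p.1 w • 1) = 0
        rw [LL_apply, Matrix.trace_smul, Matrix.trace_one, smul_smul]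
        simp [mul_comm]⟩
      map_add' := fun p q => by
        apply Subtype.ext; apply Subtype.ext
        exact (sc k n).map_add _ _
      map_smul' := fun c p => by
        apply Subtype.ext; apply Subtype.ext
        exact (sc k n).map_smul _ _ }
  apply LinearMap.finrank_le_finrank_of_injective (f := ψ)
  intro p q h
  apply Subtype.ext
  funext w
  have h1 : sc k n p.1 = sc k n q.1 :=
    congrArg (fun x : LinearMap.ker ((Lp k n).domRestrict (VV k n)) => x.1.1) h
  have h2 := congrFun (congrFun (congrFun h1 w) ⟨0, hk⟩) ⟨0, hk⟩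
  simpa [sc] using h2

/-- the limit for the real numbers -/
theorem real_limit {k : ℕ} (hk : 2 ≤ k) :
    ∃ α : ℝ, 0 ≤ α ∧ α ≤ 1 ∧ Filter.Tendsto (fun n =>
      (Module.finrank ℝ (Submodule.span ℝ (Set.range (fun σ : Equiv.Perm (Fin n) =>
        fun w => LL k ℝ (mw k ℝ σ w)))) : ℝ) / (Module.finrank ℝ (VV k n) : ℝ))
      Filter.atTop (nhds α) := by
  obtain ⟨l, hl⟩ := tt_le_II (k := k) (by omega)
  have hkk : 4 ≤ k * k := by nlinarith
  have hav : ∀ n, av (k * k) l n ≤ (n + 1) ^ l.length * (k * k - 1) ^ n := fun n =>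
    av_le (k * k) (k * k - 1) (by omega) le_rfl n l
  have hcard : Fintype.card (Fin k × Fin k) = k * k := by simp
  apply limit_of_bounds k l.length hk (tt k) (dd k)
  · intro n
    have := tc_logconv k n
    simp only [tc_eq] at this
    exact this
  · intro n
    have := PW_lower (κ := Fin k) n
    rw [hcard] at this
    unfold tt
    simpa using this
  · intro n
    have h1 : tt k n ≤ Module.finrank ℝ ((Fin n → Fin k × Fin k) → ℝ) := Submodule.finrank_le _
    rw [Module.finrank_fintype_fun_eq_card] at h1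
    refine h1.trans (le_of_eq ?_)
    simp only [Fintype.card_fun, Fintype.card_prod, Fintype.card_fin]
    rw [← sq, ← pow_mul]
  · intro n
    have h1 := hl n
    have h2 := II_le_dd (k := k) (by omega) n
    have h3 := hav n
    omega
  · exact dd_le (by omega)
  · intro n
    have h1 := hl (n + 1)
    have h2 : Module.finrank ℝ (II (cap (Fin k) ℝ) (Fin (n + 1))) ≤ Module.finrank ℝ (VV k n) := by
      have : Nonempty (Fin k) := ⟨⟨0, by omega⟩⟩
      rw [cn_eq]
      exact Submodule.finrank_mono (II_le_CC _)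
    have h3 := hav (n + 1)
    omega
  · exact cn_le k
  · exact zn_add_dd k

end Real

end Pool.Agent.U688
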