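import Mathlib

/-!
# A Cauchy-Schwarz inequality for the corners of a semisimple algebra
-/

set_option autoImplicit false

namespace Pool.Agent.U688

open Finset Matrix

section WA

/-- `x ↦ e x f`. -/
noncomputable def LR {A : Type*} [Ring A] [Algebra ℂ A] (e f : A) : A →ₗ[ℂ] A :=
  LinearMap.mulLeftRight ℂ (e, f)

@[simp] lemma LR_apply {A : Type*} [Ring A] [Algebra ℂ A] (e f x : A) : LR e f x = e * x * f := by
  simp [LR]

lemma LR_idem {A : Type*} [Ring A] [Algebra ℂ A] {e f : A} (he : e * e = e) (hf : f * f = f) :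
    IsIdempotentElem (LR e f) := by
  apply LinearMap.ext
  intro x
  show LR e f (LR e f x) = LR e f x
  rw [LR_apply, LR_apply]
  calc e * (e * x * f) * f = (e * e) * x * (f * f) := by noncomm_ring
    _ = e * x * f := by rw [he, hf]

lemma trace_LR {A : Type*} [Ring A] [Algebra ℂ A] [FiniteDimensional ℂ A] {e f : A}
    (he : e * e = e) (hf : f * f = f) :
    LinearMap.trace ℂ A (LR e f) = (Module.finrank ℂ (LinearMap.range (LR e f)) : ℂ) :=
  (LinearMap.IsIdempotentElem.isProj_range _ (LR_idem he hf)).trace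

lemma trace_LR_pi {n : ℕ} (d : Fin n → ℕ) (e f : (i : Fin n) → Matrix (Fin (d i)) (Fin (d i)) ℂ) :
    LinearMap.trace ℂ ((i : Fin n) → Matrix (Fin (d i)) (Fin (d i)) ℂ) (LR e f) =
      ∑ i, (e i).trace * (f i).trace := by
  classical
  let b := Pi.basis (fun i : Fin n => Matrix.stdBasis ℂ (Fin (d i)) (Fin (d i)))
  rw [LinearMap.trace_eq_matrix_trace ℂ b, Matrix.trace, Fintype.sum_sigma]
  apply Finset.sum_congr rfl
  intro i _
  rw [Fintype.sum_prod_type, Matrix.trace, Matrix.trace, Finset.sum_mul_sum]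
  apply Finset.sum_congr rfl
  intro p _
  apply Finset.sum_congr rfl
  intro q _
  rw [Matrix.diag_apply, LinearMap.toMatrix_apply]
  simp only [b, Pi.basis_apply, Pi.basis_repr, LR_apply, Matrix.diag_apply]
  rw [Matrix.stdBasis_eq_single]
  simp [Matrix.stdBasis, Matrix.mul_apply, Matrix.single_apply]
  rw [Finset.sum_eq_single q]
  · simp
  · intro x _ hx
    have : ∀ j, ¬ (p = j ∧ q = x) := fun j h => hx h.2.symm
    simp [this]
  · simp

lemma trace_idem {d : ℕ} {E : Matrix (Fin d) (Fin d) ℂ} (hE : E * E = E) :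
    E.trace = (Module.finrank ℂ (LinearMap.range (Matrix.toLin' E)) : ℂ) := by
  have h1 : IsIdempotentElem (Matrix.toLin' E) := by
    show Matrix.toLin' E * Matrix.toLin' E = Matrix.toLin' E
    rw [Module.End.mul_eq_comp, ← Matrix.toLin'_mul]
    rw [hE]
  have h2 := (LinearMap.IsIdempotentElem.isProj_range _ h1).trace
  rw [← h2, Matrix.trace_toLin'_eq]

theorem corner_cs {A : Type*} [Ring A] [Algebra ℂ A] [FiniteDimensional ℂ A] [IsSemisimpleRing A]
    {e f : A} (he : e * e = e) (hf : f * f = f) :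
    (Module.finrank ℂ (LinearMap.range (LR e f))) ^ 2 ≤
      Module.finrank ℂ (LinearMap.range (LR e e)) * Module.finrank ℂ (LinearMap.range (LR f f)) := by
  obtain ⟨n, d, -, ⟨φ⟩⟩ := IsSemisimpleRing.exists_algEquiv_pi_matrix_of_isAlgClosed ℂ A
  have key : ∀ {a b : A} (ha : a * a = a) (hb : b * b = b),
      Module.finrank ℂ (LinearMap.range (LR a b)) =
        ∑ i, Module.finrank ℂ (LinearMap.range (Matrix.toLin' (φ a i))) *
          Module.finrank ℂ (LinearMap.range (Matrix.toLin' (φ b i))) := by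
    intro a b ha hb
    have h1 := trace_LR ha hb
    have h2 : LinearMap.trace ℂ A (LR a b) = LinearMap.trace ℂ _ (LR (φ a) (φ b)) := by
      rw [← LinearMap.trace_conj' (LR a b) φ.toLinearEquiv]
      congr 1
      apply LinearMap.ext
      intro x
      simp [LinearEquiv.conj_apply]
    rw [h2, trace_LR_pi] at h1
    have ha' : ∀ i, φ a i * φ a i = φ a i := by
      intro i
      have := congrFun (congrArg φ ha) i
      rwa [map_mul, Pi.mul_apply] at this
    have hb' : ∀ i, φ b i * φ b i = φ b i := by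
      intro i
      have := congrFun (congrArg φ hb) i
      rwa [map_mul, Pi.mul_apply] at this
    have h3 : ∀ i, (φ a i).trace * (φ b i).trace =
        ((Module.finrank ℂ (LinearMap.range (Matrix.toLin' (φ a i))) *
          Module.finrank ℂ (LinearMap.range (Matrix.toLin' (φ b i))) : ℕ) : ℂ) := by
      intro i
      rw [trace_idem (ha' i), trace_idem (hb' i)]
      push_cast
      rfl
    rw [Finset.sum_congr rfl (fun i _ => h3 i), ← Nat.cast_sum] at h1
    exact_mod_cast h1.symm
  rw [key he hf, key he he, key hf hf]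
  have := Finset.sum_mul_sq_le_sq_mul_sq (Finset.univ : Finset (Fin n))
    (fun i => (Module.finrank ℂ (LinearMap.range (Matrix.toLin' (φ e i))) : ℝ))
    (fun i => (Module.finrank ℂ (LinearMap.range (Matrix.toLin' (φ f i))) : ℝ))
  have h2 : ((∑ i, Module.finrank ℂ (LinearMap.range (Matrix.toLin' (φ e i))) *
          Module.finrank ℂ (LinearMap.range (Matrix.toLin' (φ f i))) : ℕ) : ℝ) ^ 2 ≤
      ((∑ i, Module.finrank ℂ (LinearMap.range (Matrix.toLin' (φ e i))) *
          Module.finrank ℂ (LinearMap.range (Matrix.toLin' (φ e i))) : ℕ) : ℝ) *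
      ((∑ i, Module.finrank ℂ (LinearMap.range (Matrix.toLin' (φ f i))) *
          Module.finrank ℂ (LinearMap.range (Matrix.toLin' (φ f i))) : ℕ) : ℝ) := by
    push_cast
    simp only [← sq]
    exact this
  exact_mod_cast h2

end WA

section Star

open scoped ComplexOrder

variable {Z : Type*} [Fintype Z] [DecidableEq Z]

/-- a nilpotent matrix of the form `xᴴ x` is zero -/
lemma eq_zero_of_nilp (n : ℕ) (y : Matrix Z Z ℂ) (hy : yᴴ = y) (h : y ^ n = 0) : y = 0 := by
  have main : ∀ m : ℕ, y ^ (2 ^ m) = 0 → y = 0 := by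
    intro m
    induction m with
    | zero => intro h; simpa using h
    | succ m ih =>
      intro h
      apply ih
      have h1 : (y ^ (2 ^ m))ᴴ * y ^ (2 ^ m) = 0 := by
        rw [Matrix.conjTranspose_pow, hy, ← pow_add, ← two_mul, ← pow_succ']
        exact h
      exact Matrix.conjTranspose_mul_self_eq_zero.mp h1
  apply main n
  have : n ≤ 2 ^ n := Nat.lt_two_pow_self.le
  obtain ⟨c, hc⟩ := Nat.exists_eq_add_of_le this
  rw [hc, pow_add, h, zero_mul]

theorem semisimple_of_star (A : Subalgebra ℂ (Matrix Z Z ℂ)) (hA : ∀ x ∈ A, xᴴ ∈ A) :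
    IsSemisimpleRing A := by
  have : IsArtinianRing A := IsArtinianRing.of_finite ℂ A
  rw [IsArtinianRing.isSemisimpleRing_iff_jacobson]
  obtain ⟨n, hn⟩ := IsArtinianRing.isNilpotent_jacobson_bot (R := A)
  rw [Ideal.jacobson_bot] at hn
  rw [eq_bot_iff]
  intro x hx
  let xs : A := ⟨(x : Matrix Z Z ℂ)ᴴ, hA _ x.2⟩
  have h1 : xs * x ∈ Ring.jacobson A := Ideal.mul_mem_left _ _ hx
  have h2 : (xs * x) ^ n ∈ (Ring.jacobson A) ^ n := Ideal.pow_mem_pow h1 n
  rw [hn] at h2
  have h3 : (xs * x) ^ n = 0 := by simpa using h2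
  have h4 : ((x : Matrix Z Z ℂ)ᴴ * (x : Matrix Z Z ℂ)) ^ n = 0 := by
    have := congrArg (Subtype.val) h3
    simpa [xs] using this
  have h5 := eq_zero_of_nilp n _ (by rw [Matrix.conjTranspose_mul, Matrix.conjTranspose_conjTranspose]) h4
  have h6 : (x : Matrix Z Z ℂ) = 0 := Matrix.conjTranspose_mul_self_eq_zero.mp h5
  have : x = 0 := Subtype.ext h6
  rw [this]
  exact Submodule.zero_mem _

end Star

end Pool.Agent.U688
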