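import Pool.Agent.U688.Cond

/-!
# Alternating functions are conductors
-/

set_option autoImplicit false

namespace Pool.Agent.U688

open Finset Matrix

section Alt

variable {κ : Type} [Fintype κ] [DecidableEq κ] {R : Type} [Field R]

/-- antisymmetric along the slots `x i`. -/
def Alt {ι X : Type} [DecidableEq ι] (x : X → ι) (F : (ι → κ × κ) → R) : Prop :=
  ∀ (w : ι → κ × κ) (i j : X), i ≠ j → F (w ∘ Equiv.swap (x i) (x j)) = - F w

lemma alt_zero [CharZero R] {ι X : Type} [DecidableEq ι] {x : X → ι} {F : (ι → κ × κ) → R}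
    (hF : Alt x F) {w : ι → κ × κ} {i j : X} (hij : i ≠ j) (h : w (x i) = w (x j)) : F w = 0 := by
  have h1 := hF w i j hij
  have h2 : w ∘ Equiv.swap (x i) (x j) = w := by
    funext y
    simp only [Function.comp_apply]
    by_cases hy : y = x i
    · rw [hy, Equiv.swap_apply_left, h]
    · by_cases hy' : y = x j
      · rw [hy', Equiv.swap_apply_right, h]
      · rw [Equiv.swap_apply_of_ne_of_ne hy hy']
  rw [h2] at h1
  exact self_eq_neg.mp h1

lemma alt_pair {ι X : Type} [DecidableEq ι] {x : X → ι} (hx : Function.Injective x)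
    {F : (ι → κ × κ) → R}
    (hF : Alt x F) {w : ι → κ × κ} {i j : X} (hij : i ≠ j) (h : w (x i) = w (x j)) (p : κ × κ) :
    F (Function.update w (x i) p) + F (Function.update w (x j) p) = 0 := by
  have h1 := hF (Function.update w (x i) p) i j hij
  have hne : x i ≠ x j := fun h => hij (hx h)
  have h2 : Function.update w (x i) p ∘ Equiv.swap (x i) (x j) = Function.update w (x j) p := by
    funext y
    simp only [Function.comp_apply]
    by_cases hy : y = x i
    · rw [hy, Equiv.swap_apply_left, Function.update_of_ne hne.symm, Function.update_of_ne hne, h]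
    · by_cases hy' : y = x j
      · rw [hy', Equiv.swap_apply_right, Function.update_self, Function.update_self]
      · rw [Equiv.swap_apply_of_ne_of_ne hy hy', Function.update_of_ne hy, Function.update_of_ne hy']
  rw [h2] at h1
  rw [h1]; ring

/-- the trace identity for alternating functions -/
lemma tr_alt [CharZero R] {ι X : Type} [DecidableEq ι] [Fintype X] {x : X → ι}
    (hx : Function.Injective x) (hX : Fintype.card X = Fintype.card (κ × κ))
    {F : (ι → κ × κ) → R} (hF : Alt x F) (W : Option ι → κ × κ) :
    ∑ i : X, ins (x i) F W =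
      (Fintype.card κ : R) * (if (W none).2 = (W none).1 then F (W ∘ some) else 0) := by
  classical
  set w := W ∘ some with hw
  set a0 := (W none).1
  set b0 := (W none).2
  have hterm : ∀ i : X, ins (x i) F W = if b0 = (w (x i)).1 then
      F (Function.update w (x i) (a0, (w (x i)).2)) else 0 := fun i => rfl
  by_cases hu : Function.Injective (w ∘ x)
  · have hbij : Function.Bijective (w ∘ x) :=
      (Fintype.bijective_iff_injective_and_card _).mpr ⟨hu, hX⟩
    by_cases hab : b0 = a0
    · rw [if_pos hab]
      have h1 : ∀ i : X, ins (x i) F W = (fun p : κ × κ => if a0 = p.1 then F w else 0) ((w ∘ x) i) := by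
        intro i
        rw [hterm i]
        simp only [Function.comp_apply]
        rw [hab]
        by_cases h : a0 = (w (x i)).1
        · rw [if_pos h, if_pos h, h]
          simp
        · rw [if_neg h, if_neg h]
      rw [Finset.sum_congr rfl (fun i _ => h1 i),
        hbij.sum_comp (fun p : κ × κ => if a0 = p.1 then F w else 0), Fintype.sum_prod_type,
        Finset.sum_comm]
      simp
    · rw [if_neg hab, mul_zero]
      apply Finset.sum_eq_zero
      intro i _
      rw [hterm i]
      split_ifs with h
      · obtain ⟨i', hi'⟩ := hbij.surjective (a0, (w (x i)).2)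
        have hne : i ≠ i' := by
          intro hh
          subst hh
          simp only [Function.comp_apply] at hi'
          apply hab
          rw [h, hi']
        apply alt_zero hF hne
        rw [Function.update_self, Function.update_of_ne (fun h => hne (hx h).symm)]
        exact hi'.symm
      · rfl
  · rw [Function.Injective] at hu
    push Not at hu
    obtain ⟨i, j, hij, hne⟩ := hu
    simp only [Function.comp_apply] at hij
    rw [alt_zero hF hne hij]
    simp only [ite_self, mul_zero]
    rw [Finset.sum_eq_add i j hne]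
    · rw [hterm i, hterm j, ← hij]
      split_ifs with h
      · exact alt_pair hx hF hne hij _
      · simp
    · intro l _ hl
      rw [hterm l]
      split_ifs with h
      · apply alt_zero hF hne
        rw [Function.update_of_ne (fun h => hl.1 (hx h).symm),
          Function.update_of_ne (fun h => hl.2 (hx h).symm)]
        exact hij
      · rfl
    · intro h; exact absurd (Finset.mem_univ _) h
    · intro h; exact absurd (Finset.mem_univ _) h

/-- product of a function with a trace monomial in new slots -/
noncomputable def ten {ι S : Type} (F : (ι → κ × κ) → R) (τ : Equiv.Perm S) : (ι ⊕ S → κ × κ) → R :=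
  fun w => F (w ∘ Sum.inl) * ptw R τ (w ∘ Sum.inr)

/-- `Option (ι ⊕ S) ≃ ι ⊕ Option S` -/
def oEq (ι S : Type) : Option (ι ⊕ S) ≃ ι ⊕ Option S where
  toFun x := match x with
    | none => Sum.inr none
    | some (Sum.inl c) => Sum.inl c
    | some (Sum.inr a) => Sum.inr (some a)
  invFun x := match x with
    | Sum.inl c => some (Sum.inl c)
    | Sum.inr none => none
    | Sum.inr (some a) => some (Sum.inr a)
  left_inv x := by rcases x with _ | (c | a) <;> rfl
  right_inv x := by rcases x with c | (_ | a) <;> rfl

lemma ten_ins {ι S : Type} [DecidableEq ι] [DecidableEq S] (F : (ι → κ × κ) → R) (τ : Equiv.Perm S)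
    (s : S) : ten F (insPerm s τ) = ren R (oEq ι S) (ins (Sum.inr s) (ten F τ)) := by
  funext w
  show F (w ∘ Sum.inl) * ptw R (insPerm s τ) (w ∘ Sum.inr) = ins (Sum.inr s) (ten F τ) (w ∘ oEq ι S)
  rw [← ins_ptw, ins_apply, ins_apply]
  have e1 : (w ∘ (oEq ι S)) none = (w ∘ Sum.inr) none := rfl
  have e2 : (w ∘ (oEq ι S)) (some (Sum.inr s)) = (w ∘ Sum.inr) (some s) := rfl
  rw [e1, e2]
  split_ifs with h
  · unfold ten
    have h1 : (Function.update ((w ∘ (oEq ι S)) ∘ some) (Sum.inr s)
        (((w ∘ Sum.inr) none).1, ((w ∘ Sum.inr) (some s)).2)) ∘ Sum.inl = w ∘ Sum.inl := by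
      funext i
      simp only [Function.comp_apply]
      rw [Function.update_of_ne (by simp)]
      rfl
    have h2 : (Function.update ((w ∘ (oEq ι S)) ∘ some) (Sum.inr s)
        (((w ∘ Sum.inr) none).1, ((w ∘ Sum.inr) (some s)).2)) ∘ Sum.inr =
        Function.update ((w ∘ Sum.inr) ∘ some) s
        (((w ∘ Sum.inr) none).1, ((w ∘ Sum.inr) (some s)).2) := by
      funext i
      simp only [Function.comp_apply]
      by_cases hi : i = s
      · subst hi; simp
      · rw [Function.update_of_ne (by simpa using hi), Function.update_of_ne hi]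
        rfl
    rw [h1, h2]
  · simp

lemma ten_alt {ι X S : Type} [DecidableEq ι] [DecidableEq S] {x : X → ι}
    {F : (ι → κ × κ) → R} (hF : Alt x F) (τ : Equiv.Perm S) :
    Alt (fun i => (Sum.inl (x i) : ι ⊕ S)) (ten F τ) := by
  intro w i j hij
  unfold ten
  have h1 : (w ∘ Equiv.swap (Sum.inl (x i) : ι ⊕ S) (Sum.inl (x j))) ∘ Sum.inl =
      (w ∘ Sum.inl) ∘ Equiv.swap (x i) (x j) := by
    funext y
    simp only [Function.comp_apply]
    by_cases hy : y = x i
    · rw [hy, Equiv.swap_apply_left, Equiv.swap_apply_left]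
    · by_cases hy' : y = x j
      · rw [hy', Equiv.swap_apply_right, Equiv.swap_apply_right]
      · rw [Equiv.swap_apply_of_ne_of_ne hy hy', Equiv.swap_apply_of_ne_of_ne (by simpa using hy)
          (by simpa using hy')]
  have h2 : (w ∘ Equiv.swap (Sum.inl (x i) : ι ⊕ S) (Sum.inl (x j))) ∘ Sum.inr = w ∘ Sum.inr := by
    funext y
    simp only [Function.comp_apply]
    rw [Equiv.swap_apply_of_ne_of_ne (by simp) (by simp)]
  rw [h1, h2, hF _ i j hij]
  ring

theorem conductor [CharZero R] [Nonempty κ] {ι X : Type} [DecidableEq ι] [Fintype X] {x : X → ι}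
    (hx : Function.Injective x) (hX : Fintype.card X = Fintype.card (κ × κ))
    {F : (ι → κ × κ) → R} (hF : Alt x F) (hC : F ∈ CC κ R ι) (S : Type) [Finite S]
    (τ : Equiv.Perm S) : ten F τ ∈ CC κ R (ι ⊕ S) := by
  classical
  induction S using Finite.induction_empty_option with
  | @of_equiv S S' e ih =>
    have h1 := ih (e.trans (τ.trans e.symm))
    have h2 := ren_CC (Equiv.sumCongr (Equiv.refl ι) e) h1
    convert h2 using 1
    funext w
    show F (w ∘ Sum.inl) * ptw R τ (w ∘ Sum.inr) =
      F (w ∘ Sum.inl) * ptw R (e.trans (τ.trans e.symm)) ((w ∘ Sum.inr) ∘ e)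
    congr 1
    by_cases h : ∀ i, ((w ∘ Sum.inr) i).2 = ((w ∘ Sum.inr) (τ i)).1
    · rw [ptw_eq_one h, ptw_eq_one]
      intro i
      simpa using h (e i)
    · push Not at h
      obtain ⟨i, hi⟩ := h
      rw [ptw_eq_zero i hi, ptw_eq_zero (e.symm i)]
      simpa using hi
  | h_empty =>
    have h1 := ren_CC (Equiv.sumEmpty ι PEmpty).symm hC
    convert h1 using 1
    funext w
    show F (w ∘ Sum.inl) * ptw R τ (w ∘ Sum.inr) = F (w ∘ (Equiv.sumEmpty ι PEmpty).symm)
    rw [ptw_eq_one (fun i => i.elim), mul_one]
    rfl
  | @h_option S hS ih =>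
    have hτ := map_equiv_removeNone τ
    rcases ho : τ none with _ | s
    · -- the trace of the new variable
      have hτ' : τ = Equiv.optionCongr (Equiv.removeNone τ) := by
        rw [hτ, ho, Equiv.swap_self]; exact (one_mul τ).symm
      have hG := ih (Equiv.removeNone τ)
      have hsum : (fun W => ∑ i : X, ins (Sum.inl (x i)) (ten F (Equiv.removeNone τ)) W) ∈
          CC κ R (Option (ι ⊕ S)) := by
        have : (fun W => ∑ i : X, ins (Sum.inl (x i)) (ten F (Equiv.removeNone τ)) W) =
            ∑ i : X, ins (Sum.inl (x i)) (ten F (Equiv.removeNone τ)) := by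
          funext W; simp
        rw [this]
        exact Submodule.sum_mem _ (fun i _ => ins_CC _ hG)
      have h2 := ren_CC (oEq ι S) (Submodule.smul_mem _ ((Fintype.card κ : R)⁻¹) hsum)
      convert h2 using 1
      funext w
      show F (w ∘ Sum.inl) * ptw R τ (w ∘ Sum.inr) = (Fintype.card κ : R)⁻¹ *
        (∑ i : X, ins (Sum.inl (x i)) (ten F (Equiv.removeNone τ)) (w ∘ oEq ι S))
      have hinj : Function.Injective (fun i => (Sum.inl (x i) : ι ⊕ S)) :=
        fun i j h => hx (Sum.inl_injective h)
      rw [tr_alt hinj hX (ten_alt hF _), ← mul_assoc, inv_mul_cancel₀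
        (by exact_mod_cast Fintype.card_ne_zero), one_mul]
      show F (w ∘ Sum.inl) * ptw R τ (w ∘ Sum.inr) = if ((w ∘ Sum.inr) none).2 = ((w ∘ Sum.inr) none).1 then
        F (w ∘ Sum.inl) * ptw R (Equiv.removeNone τ) ((w ∘ Sum.inr) ∘ some) else 0
      generalize w ∘ Sum.inr = v
      split_ifs with h
      · congr 1
        have hs : ∀ j, τ (some j) = some (Equiv.removeNone τ j) := by
          intro j
          conv_lhs => rw [hτ']
          rfl
        by_cases h' : ∀ i, ((v ∘ some) i).2 = ((v ∘ some) (Equiv.removeNone τ i)).1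
        · rw [ptw_eq_one h', ptw_eq_one]
          intro i
          rcases i with _ | j
          · rw [ho]; exact h
          · rw [hs j]; exact h' j
        · push Not at h'
          obtain ⟨i, hi⟩ := h'
          rw [ptw_eq_zero i hi, ptw_eq_zero (some i)]
          rw [hs i]; exact hi
      · rw [ptw_eq_zero none, mul_zero]
        rw [ho]; exact h
    · have hτ' : τ = insPerm s (Equiv.removeNone τ) := by
        unfold insPerm
        rw [hτ, ho, ← mul_assoc, Equiv.swap_mul_self, one_mul]
      rw [hτ', ten_ins]
      exact ren_CC _ (ins_CC _ (ih _))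

end Alt

section Capelli

variable {κ : Type} [Fintype κ] [DecidableEq κ] {R : Type} [Field R]

/-- slots of the Capelli type polynomial -/
abbrev CI (κ : Type) : Type := (κ × κ) ⊕ ((κ × κ) ⊕ (κ × κ))

/-- the list of slots -/
noncomputable def cl (π : Equiv.Perm (κ × κ)) : List (CI κ) :=
  (Finset.univ : Finset (κ × κ)).toList.flatMap
    (fun p => [Sum.inr (Sum.inl p), Sum.inl (π p), Sum.inr (Sum.inr p)])

lemma cl_full (π : Equiv.Perm (κ × κ)) : Full (cl π) := by
  constructor
  · unfold cl
    rw [List.nodup_flatMap]
    constructor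
    · intro p _
      simp
    · have h := Finset.nodup_toList (Finset.univ : Finset (κ × κ))
      refine h.imp ?_
      intro p q hpq
      show List.Disjoint _ _
      intro a ha hb
      simp only [List.mem_cons, List.not_mem_nil, or_false] at ha hb
      rcases ha with rfl | rfl | rfl
      · rcases hb with hb | hb | hb
        · exact hpq (by simpa using hb)
        · simp at hb
        · simp at hb
      · rcases hb with hb | hb | hb
        · simp at hb
        · exact hpq (by simpa using hb)
        · simp at hb
      · rcases hb with hb | hb | hb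
        · simp at hb
        · simp at hb
        · exact hpq (by simpa using hb)
  · intro i
    unfold cl
    rw [List.mem_flatMap]
    rcases i with p | (p | p)
    · exact ⟨π.symm p, by simp, by simp⟩
    · exact ⟨p, by simp, by simp⟩
    · exact ⟨p, by simp, by simp⟩

/-- The Capelli type function. -/
noncomputable def cap (κ : Type) [Fintype κ] [DecidableEq κ] (R : Type) [Field R] :
    (CI κ → κ × κ) → R :=
  ∑ π : Equiv.Perm (κ × κ), ((Equiv.Perm.sign π : ℤ) : R) • tm R (cl π)

lemma cap_mem : cap κ R ∈ CC κ R (CI κ) :=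
  Submodule.sum_mem _ (fun π _ => Submodule.smul_mem _ _
    (Submodule.subset_span ⟨cl π, cl_full π, rfl⟩))

lemma tm_comp {ι : Type} (l : List ι) (σ : ι → ι) (w : ι → κ × κ) :
    tm R l (w ∘ σ) = tm R (l.map σ) w := by
  unfold tm
  rw [List.map_map]
  rfl

lemma cap_alt : Alt (fun p : κ × κ => (Sum.inl p : CI κ)) (cap κ R) := by
  intro w i j hij
  have hmap : ∀ π : Equiv.Perm (κ × κ), (cl π).map (Equiv.swap (Sum.inl i : CI κ) (Sum.inl j)) =
      cl (Equiv.swap i j * π) := by
    intro π
    unfold cl
    rw [List.map_flatMap]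
    congr 1
    funext p
    simp only [List.map_cons, List.map_nil]
    rw [Equiv.swap_apply_of_ne_of_ne (by simp) (by simp),
      Equiv.swap_apply_of_ne_of_ne (a := (Sum.inl i : CI κ)) (b := Sum.inl j)
        (x := Sum.inr (Sum.inr p)) (by simp) (by simp)]
    congr 2
    rw [Equiv.Perm.mul_apply]
    by_cases h1 : π p = i
    · rw [h1, Equiv.swap_apply_left, Equiv.swap_apply_left]
    · by_cases h2 : π p = j
      · rw [h2, Equiv.swap_apply_right, Equiv.swap_apply_right]
      · rw [Equiv.swap_apply_of_ne_of_ne h1 h2, Equiv.swap_apply_of_ne_of_ne (by simpa using h1)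
          (by simpa using h2)]
  have h1 : cap κ R (w ∘ Equiv.swap (Sum.inl i : CI κ) (Sum.inl j)) =
      ∑ π : Equiv.Perm (κ × κ), ((Equiv.Perm.sign π : ℤ) : R) * tm R (cl (Equiv.swap i j * π)) w := by
    unfold cap
    rw [Finset.sum_apply]
    apply Finset.sum_congr rfl
    intro π _
    rw [Pi.smul_apply, smul_eq_mul, tm_comp, hmap]
  have h2 : cap κ R w =
      ∑ π : Equiv.Perm (κ × κ), ((Equiv.Perm.sign (Equiv.swap i j * π) : ℤ) : R) *
        tm R (cl (Equiv.swap i j * π)) w := by
    unfold cap
    rw [Finset.sum_apply]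
    rw [← Equiv.sum_comp (Equiv.mulLeft (Equiv.swap i j))]
    rfl
  show cap κ R (w ∘ Equiv.swap (Sum.inl i : CI κ) (Sum.inl j)) = - cap κ R w
  rw [h1, h2, ← Finset.sum_neg_distrib]
  apply Finset.sum_congr rfl
  intro π _
  rw [Equiv.Perm.sign_mul, Equiv.Perm.sign_swap hij]
  push_cast
  ring

/-- the special word -/
def sw (c : κ) : CI κ → κ × κ := fun x => match x with
  | Sum.inl p => p
  | Sum.inr (Sum.inl p) => (c, p.1)
  | Sum.inr (Sum.inr p) => (p.2, c)

lemma EE_pow (c : κ) (l : List (κ × κ)) (hl : l ≠ []) :
    ((l.map (fun _ => EE R (c, c))).prod).trace = 1 := by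
  have : ∀ l : List (κ × κ), l ≠ [] → (l.map (fun _ => EE R (c, c))).prod = EE R (c, c) := by
    intro l
    induction l with
    | nil => intro h; exact absurd rfl h
    | cons p l ih =>
      intro _
      rw [List.map_cons, List.prod_cons]
      by_cases h : l = []
      · subst h; simp
      · rw [ih h, EE_mul]; simp
  rw [this l hl]
  unfold EE
  simp

lemma tm_flatMap_sw (c : κ) (π : Equiv.Perm (κ × κ)) :
    tm R (cl π) (sw c) = if π = 1 then 1 else 0 := by
  have hprod : ∀ l : List (κ × κ),
      ((l.flatMap (fun p => [(Sum.inr (Sum.inl p) : CI κ), Sum.inl (π p), Sum.inr (Sum.inr p)])).map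
        (fun i => EE R (sw c i))).prod =
      (l.map (fun p => if p = π p then EE R (c, c) else 0)).prod := by
    intro l
    induction l with
    | nil => rfl
    | cons p l ih =>
      rw [List.flatMap_cons, List.map_append, List.prod_append, ih, List.map_cons, List.prod_cons]
      congr 1
      simp only [List.map_cons, List.map_nil, List.prod_cons, List.prod_nil, mul_one, sw]
      rw [EE_mul (π p)]
      by_cases h : p = π p
      · rw [if_pos h, ← h]
        simp only [if_true]
        rw [EE_mul]; simp
      · rw [if_neg h]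
        split_ifs with h1
        · rw [EE_mul]
          simp only
          rw [if_neg]
          intro h2
          exact h (Prod.ext h2 h1.symm)
        · simp
  unfold tm cl
  rw [hprod]
  by_cases h : π = 1
  · subst h
    rw [if_pos rfl]
    simp only [Equiv.Perm.coe_one, id_eq, if_true]
    apply EE_pow
    intro h
    have : (c, c) ∈ (Finset.univ : Finset (κ × κ)).toList := by simp
    rw [h] at this
    simp at this
  · rw [if_neg h]
    have : ∃ p, π p ≠ p := by
      by_contra hh
      push Not at hh
      exact h (Equiv.ext hh)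
    obtain ⟨p, hp⟩ := this
    rw [List.prod_eq_zero]
    · simp
    · rw [List.mem_map]
      refine ⟨p, by simp, ?_⟩
      rw [if_neg (fun h => hp h.symm)]

lemma cap_sw (c : κ) : cap κ R (sw c) = 1 := by
  unfold cap
  rw [Finset.sum_apply]
  simp only [Pi.smul_apply, smul_eq_mul, tm_flatMap_sw]
  simp

lemma cap_ne_zero [Nonempty κ] : cap κ R ≠ 0 := by
  intro h
  obtain ⟨c⟩ := ‹Nonempty κ›
  have := cap_sw (R := R) c
  rw [h] at this
  simp at this

/-- **The conductor.** -/
theorem cap_conductor [CharZero R] [Nonempty κ] (S : Type) [Finite S] (τ : Equiv.Perm S) :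
    ten (cap κ R) τ ∈ CC κ R (CI κ ⊕ S) :=
  conductor (x := fun p : κ × κ => (Sum.inl p : CI κ)) Sum.inl_injective rfl cap_alt cap_mem S τ

end Capelli

end Pool.Agent.U688
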