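import Mathlib

/-!
# Words avoiding a given subsequence
-/

set_option autoImplicit false

namespace Pool.Agent.U688

open Finset

open Classical in
/-- number of words of length `n` over `Fin d` that do not contain `l` as a subsequence. -/
noncomputable def av (d : ℕ) (l : List (Fin d)) (n : ℕ) : ℕ :=
  Fintype.card {W : Fin n → Fin d // ¬ l.Sublist (List.ofFn W)}

lemma av_nil (d n : ℕ) : av d [] n = 0 := by
  classical
  unfold av
  rw [Fintype.card_eq_zero_iff]
  exact ⟨fun W => W.2 (List.nil_sublist _)⟩

lemma av_zero (d : ℕ) (l : List (Fin d)) : av d l 0 ≤ 1 := by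
  classical
  unfold av
  refine (Fintype.card_subtype_le _).trans ?_
  simp

lemma av_cons (d : ℕ) (c : Fin d) (l : List (Fin d)) (n : ℕ) :
    av d (c :: l) (n + 1) ≤ av d l n + (d - 1) * av d (c :: l) n := by
  classical
  have hcard : Fintype.card {x : Fin d // x ≠ c} = d - 1 := by
    rw [Fintype.card_subtype_compl]
    simp
  unfold av
  rw [← hcard, ← Fintype.card_prod, ← Fintype.card_sum]
  let φ : {W : Fin (n + 1) → Fin d // ¬ (c :: l).Sublist (List.ofFn W)} →
      {W : Fin n → Fin d // ¬ l.Sublist (List.ofFn W)} ⊕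
        ({x : Fin d // x ≠ c} × {W : Fin n → Fin d // ¬ (c :: l).Sublist (List.ofFn W)}) :=
    fun W => if h : W.1 0 = c then Sum.inl ⟨fun i => W.1 i.succ, by
        intro h'
        apply W.2
        rw [List.ofFn_succ, h]
        exact List.Sublist.cons_cons _ h'⟩
      else Sum.inr (⟨W.1 0, h⟩, ⟨fun i => W.1 i.succ, by
        intro h'
        apply W.2
        rw [List.ofFn_succ]
        exact List.Sublist.cons _ h'⟩)
  apply Fintype.card_le_of_injective φ
  intro W W' h
  have hW : ∀ V : {W : Fin (n + 1) → Fin d // ¬ (c :: l).Sublist (List.ofFn W)}, V.1 0 = c →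
      ∃ p, φ V = Sum.inl p ∧ p.1 = fun i => V.1 i.succ := by
    intro V hV
    refine ⟨_, dif_pos hV, rfl⟩
  have hW' : ∀ V : {W : Fin (n + 1) → Fin d // ¬ (c :: l).Sublist (List.ofFn W)}, V.1 0 ≠ c →
      ∃ p, φ V = Sum.inr p ∧ p.1.1 = V.1 0 ∧ p.2.1 = fun i => V.1 i.succ := by
    intro V hV
    refine ⟨_, dif_neg hV, rfl, rfl⟩
  apply Subtype.ext
  by_cases h0 : W.1 0 = c
  · obtain ⟨p, hp, hp'⟩ := hW W h0
    by_cases h0' : W'.1 0 = c
    · obtain ⟨q, hq, hq'⟩ := hW W' h0'
      rw [hp, hq] at h
      have hpq := Sum.inl_injective h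
      subst hpq
      funext i
      refine Fin.cases ?_ (fun j => ?_) i
      · rw [h0, h0']
      · exact congrFun (hp'.symm.trans hq') j
    · obtain ⟨q, hq, hq', _⟩ := hW' W' h0'
      rw [hp, hq] at h
      simp at h
  · obtain ⟨p, hp, hp1, hp2⟩ := hW' W h0
    by_cases h0' : W'.1 0 = c
    · obtain ⟨q, hq, hq'⟩ := hW W' h0'
      rw [hp, hq] at h
      simp at h
    · obtain ⟨q, hq, hq1, hq2⟩ := hW' W' h0'
      rw [hp, hq] at h
      have hpq := Sum.inr_injective h
      subst hpq
      funext i
      refine Fin.cases ?_ (fun j => ?_) i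
      · rw [← hp1, ← hq1]
      · exact congrFun (hp2.symm.trans hq2) j

lemma av_le (d D : ℕ) (hD : 1 ≤ D) (hdD : d - 1 ≤ D) (n : ℕ) : ∀ l : List (Fin d),
    av d l n ≤ (n + 1) ^ l.length * D ^ n := by
  induction n with
  | zero => intro l; simpa using av_zero d l
  | succ n ih =>
    intro l
    rcases l with _ | ⟨c, l⟩
    · rw [av_nil]; exact Nat.zero_le _
    · refine (av_cons d c l n).trans ?_
      have h1 := ih l
      have h2 := ih (c :: l)
      rw [List.length_cons] at h2 ⊢
      set m := l.length
      calc av d l n + (d - 1) * av d (c :: l) n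
          ≤ (n + 1) ^ m * D ^ n + D * ((n + 1) ^ (m + 1) * D ^ n) :=
            Nat.add_le_add h1 (Nat.mul_le_mul hdD h2)
        _ ≤ (n + 1) ^ m * (D ^ n * D) + D * ((n + 1) ^ (m + 1) * D ^ n) := by
            apply Nat.add_le_add_right
            apply Nat.mul_le_mul_left
            exact Nat.le_mul_of_pos_right _ hD
        _ = (n + 1) ^ m * (n + 2) * D ^ (n + 1) := by ring
        _ ≤ (n + 2) ^ m * (n + 2) * D ^ (n + 1) := by
            apply Nat.mul_le_mul_right
            apply Nat.mul_le_mul_right
            exact Nat.pow_le_pow_left (by omega) _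
        _ = (n + 1 + 1) ^ (m + 1) * D ^ (n + 1) := by ring

/-- overwrite the letters of `W` at the positions `s` by `u`. -/
noncomputable def ow {d N n : ℕ} (s : Fin N ↪o Fin n) (u : Fin N → Fin d) (W : Fin n → Fin d) :
    Fin n → Fin d := Function.extend s u W

lemma ow_self {d N n : ℕ} (s : Fin N ↪o Fin n) (W : Fin n → Fin d) : ow s (W ∘ s) W = W := by
  funext i
  unfold ow
  by_cases h : ∃ j, s j = i
  · obtain ⟨j, rfl⟩ := h
    rw [s.injective.extend_apply]; rfl
  · rw [Function.extend_apply' _ _ _ h]

lemma ow_lt {d N n : ℕ} (s : Fin N ↪o Fin n) (u v : Fin N → Fin d) (W : Fin n → Fin d)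
    (h : toLex u < toLex v) : toLex (ow s u W) < toLex (ow s v W) := by
  obtain ⟨j, hj, hlt⟩ := h
  refine ⟨s j, ?_, ?_⟩
  · intro i hi
    show ow s u W i = ow s v W i
    unfold ow
    by_cases h : ∃ l, s l = i
    · obtain ⟨l, rfl⟩ := h
      rw [s.injective.extend_apply, s.injective.extend_apply]
      exact hj l (s.lt_iff_lt.mp hi)
    · rw [Function.extend_apply' _ _ _ h, Function.extend_apply' _ _ _ h]
  · show ow s u W (s j) < ow s v W (s j)
    unfold ow
    rw [s.injective.extend_apply, s.injective.extend_apply]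
    exact hlt

/-- A space of functions on words satisfying the relations of `g` is small. -/
theorem finrank_le_av {d N n : ℕ} (g : (Fin N → Fin d) → ℝ) (w0 : Fin N → Fin d) (h0 : g w0 ≠ 0)
    (hmax : ∀ u, g u ≠ 0 → toLex u ≤ toLex w0) (O : Submodule ℝ ((Fin n → Fin d) → ℝ))
    (hO : ∀ p ∈ O, ∀ (s : Fin N ↪o Fin n) (W : Fin n → Fin d), ∑ u, g u * p (ow s u W) = 0) :
    Module.finrank ℝ O ≤ av d (List.ofFn w0) n := by
  classical
  let φ : O →ₗ[ℝ] ({W : Fin n → Fin d // ¬ (List.ofFn w0).Sublist (List.ofFn W)} → ℝ) :=
    { toFun := fun p W => p.1 W.1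
      map_add' := fun _ _ => rfl
      map_smul' := fun _ _ => rfl }
  have hinj : Function.Injective φ := by
    rw [← LinearMap.ker_eq_bot, LinearMap.ker_eq_bot']
    intro p hp
    have key : ∀ V : Lex (Fin n → Fin d), p.1 (ofLex V) = 0 := by
      intro V
      induction V using WellFoundedLT.induction with
      | ind V ih =>
        by_cases hV : (List.ofFn w0).Sublist (List.ofFn (ofLex V))
        · rw [List.sublist_iff_exists_fin_orderEmbedding_get_eq] at hV
          obtain ⟨f, hf⟩ := hV
          let s : Fin N ↪o Fin n := ((Fin.castOrderIso (by simp)).toOrderEmbedding.trans f).trans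
            (Fin.castOrderIso (by simp)).toOrderEmbedding
          have hs : (ofLex V) ∘ s = w0 := by
            funext i
            have := hf (Fin.cast (by simp) i)
            simp only [List.get_ofFn] at this
            exact this.symm
          have hsum := hO p.1 p.2 s (ofLex V)
          rw [Finset.sum_eq_single w0] at hsum
          · rw [← hs, ow_self] at hsum
            rw [hs] at hsum
            exact (mul_eq_zero.mp hsum).resolve_left h0
          · intro u _ hu
            by_cases hgu : g u = 0
            · rw [hgu, zero_mul]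
            · have h1 : toLex u < toLex w0 := lt_of_le_of_ne (hmax u hgu) (fun h => hu (toLex.injective h))
              have h2 := ow_lt s u w0 (ofLex V) h1
              have h3 : ow s w0 (ofLex V) = ofLex V := by
                conv_lhs => rw [← hs]
                exact ow_self s _
              rw [h3] at h2
              have h4 := ih _ h2
              rw [ofLex_toLex] at h4
              rw [h4, mul_zero]
          · intro h; exact absurd (Finset.mem_univ _) h
        · exact congrFun hp ⟨ofLex V, hV⟩
    apply Subtype.ext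
    funext W
    exact key (toLex W)
  have := LinearMap.finrank_le_finrank_of_injective hinj
  rw [Module.finrank_fintype_fun_eq_card] at this
  exact this

end Pool.Agent.U688
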