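import Pool.Agent.U688.Perm

/-!
# Trace monomials, insertion, and the conductor property of alternating functions
-/

set_option autoImplicit false

namespace Pool.Agent.U688

open Finset Matrix

section Defs

variable {κ : Type} [Fintype κ] [DecidableEq κ] {R : Type} [Field R]

/-- matrix units -/
def EE (R : Type) [Field R] (p : κ × κ) : Matrix κ κ R := Matrix.single p.1 p.2 1

lemma EE_mul (p q : κ × κ) : EE R p * EE R q = if p.2 = q.1 then EE R (p.1, q.2) else 0 := by
  unfold EE
  by_cases h : p.2 = q.1
  · rw [if_pos h, h, Matrix.single_mul_single_same, mul_one]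
  · rw [if_neg h, Matrix.single_mul_single_of_ne _ _ _ _ h]

/-- trace monomial of a list -/
def tm (R : Type) [Field R] {ι : Type} (l : List ι) (w : ι → κ × κ) : R :=
  ((l.map (fun i => EE R (w i))).prod).trace

/-- full lists -/
def Full {ι : Type} (l : List ι) : Prop := l.Nodup ∧ ∀ i, i ∈ l

/-- the span of the one-cycle trace monomials -/
noncomputable def CC (κ : Type) [Fintype κ] [DecidableEq κ] (R : Type) [Field R] (ι : Type) :
    Submodule R ((ι → κ × κ) → R) :=
  Submodule.span R {f | ∃ l : List ι, Full l ∧ f = tm R l}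

/-- the span of all trace monomials -/
noncomputable def PW (κ : Type) [Fintype κ] [DecidableEq κ] (R : Type) [Field R] (ι : Type) :
    Submodule R ((ι → κ × κ) → R) :=
  Submodule.span R (Set.range (fun (σ : Equiv.Perm ι) (w : ι → κ × κ) =>
    pt κ R σ (Prod.fst ∘ w) (Prod.snd ∘ w)))

/-- the word form of a permutation tensor -/
noncomputable def ptw (R : Type) [Field R] {ι : Type} (σ : Equiv.Perm ι) (w : ι → κ × κ) : R :=
  pt κ R σ (Prod.fst ∘ w) (Prod.snd ∘ w)

lemma ptw_mem {ι : Type} (σ : Equiv.Perm ι) : ptw (κ := κ) R σ ∈ PW κ R ι :=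
  Submodule.subset_span ⟨σ, rfl⟩

lemma ptw_eq_one {ι : Type} {σ : Equiv.Perm ι} {w : ι → κ × κ} (h : ∀ i, (w i).2 = (w (σ i)).1) :
    ptw R σ w = 1 := by
  classical
  unfold ptw pt
  rw [if_pos]
  funext i
  exact h i

lemma ptw_eq_zero {ι : Type} {σ : Equiv.Perm ι} {w : ι → κ × κ} (i : ι)
    (h : (w i).2 ≠ (w (σ i)).1) : ptw R σ w = 0 := by
  classical
  unfold ptw pt
  rw [if_neg]
  intro h'
  exact h (congrFun h' i)

/-- renaming of the slots -/
def ren (R : Type) [Field R] {ι ι' : Type} (e : ι ≃ ι') :
    ((ι → κ × κ) → R) →ₗ[R] ((ι' → κ × κ) → R) where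
  toFun f := fun w => f (w ∘ e)
  map_add' _ _ := rfl
  map_smul' _ _ := rfl

lemma ren_CC {ι ι' : Type} (e : ι ≃ ι') {f : (ι → κ × κ) → R} (hf : f ∈ CC κ R ι) :
    ren R e f ∈ CC κ R ι' := by
  refine map_mem_of_span (ren R e) ?_ hf
  rintro _ ⟨l, hl, rfl⟩
  apply Submodule.subset_span
  refine ⟨l.map e, ⟨hl.1.map e.injective, fun i => ?_⟩, ?_⟩
  · rw [List.mem_map]
    exact ⟨e.symm i, hl.2 _, by simp⟩
  · funext w
    show tm R l (w ∘ e) = tm R (l.map e) w
    unfold tm
    rw [List.map_map]
    rfl

lemma ren_PW {ι ι' : Type} (e : ι ≃ ι') {f : (ι → κ × κ) → R} (hf : f ∈ PW κ R ι) :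
    ren R e f ∈ PW κ R ι' := by
  refine map_mem_of_span (ren R e) ?_ hf
  rintro _ ⟨σ, rfl⟩
  have : ren R e (fun w : ι → κ × κ => pt κ R σ (Prod.fst ∘ w) (Prod.snd ∘ w)) =
      ptw R (e.symm.trans (σ.trans e)) := by
    classical
    funext w
    show ptw R σ (w ∘ e) = _
    by_cases h : ∀ i, ((w ∘ e) i).2 = ((w ∘ e) (σ i)).1
    · rw [ptw_eq_one h, ptw_eq_one]
      intro i
      have := h (e.symm i)
      simpa using this
    · push Not at h
      obtain ⟨i, hi⟩ := h
      rw [ptw_eq_zero i hi, ptw_eq_zero (e i)]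
      simpa using hi
  rw [this]
  exact ptw_mem _

/-- insertion of a new slot `none` before the slot `i`: `x_i` is replaced by `x_none x_i`. -/
def ins {ι : Type} [DecidableEq ι] (i : ι) : ((ι → κ × κ) → R) →ₗ[R] ((Option ι → κ × κ) → R) where
  toFun f := fun w => if (w none).2 = (w (some i)).1 then
    f (Function.update (w ∘ some) i ((w none).1, (w (some i)).2)) else 0
  map_add' f g := by funext w; simp only [Pi.add_apply]; split_ifs <;> simp
  map_smul' c f := by funext w; simp only [Pi.smul_apply, RingHom.id_apply]; split_ifs <;> simp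

lemma ins_apply {ι : Type} [DecidableEq ι] (i : ι) (f : (ι → κ × κ) → R) (w : Option ι → κ × κ) :
    ins i f w = if (w none).2 = (w (some i)).1 then
    f (Function.update (w ∘ some) i ((w none).1, (w (some i)).2)) else 0 := rfl

lemma tm_congr {ι : Type} (l : List ι) (w w' : ι → κ × κ) (h : ∀ i ∈ l, w i = w' i) :
    (l.map (fun i => EE R (w i))) = (l.map (fun i => EE R (w' i))) := by
  apply List.map_congr_left
  intro i hi
  rw [h i hi]

lemma ins_tm {ι : Type} [DecidableEq ι] (i : ι) (l1 l2 : List ι) (h1 : i ∉ l1) (h2 : i ∉ l2) :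
    ins i (tm (κ := κ) R (l1 ++ i :: l2)) =
      tm R (l1.map some ++ none :: some i :: l2.map some) := by
  funext w
  rw [ins_apply]
  unfold tm
  simp only [List.map_append, List.map_cons, List.prod_append, List.prod_cons, List.map_map]
  rw [tm_congr (R := R) l1 (Function.update (w ∘ some) i ((w none).1, (w (some i)).2)) (w ∘ some)
    (fun j hj => Function.update_of_ne (fun h : j = i => h1 (by rwa [h] at hj)) _ _),
    tm_congr (R := R) l2 (Function.update (w ∘ some) i ((w none).1, (w (some i)).2)) (w ∘ some)
    (fun j hj => Function.update_of_ne (fun h : j = i => h2 (by rwa [h] at hj)) _ _)]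
  rw [Function.update_self, ← mul_assoc (EE R (w none)), EE_mul]
  split_ifs with h
  · rfl
  · simp

lemma ins_CC {ι : Type} [DecidableEq ι] (i : ι) {f : (ι → κ × κ) → R} (hf : f ∈ CC κ R ι) :
    ins i f ∈ CC κ R (Option ι) := by
  refine map_mem_of_span (ins i) ?_ hf
  rintro _ ⟨l, hl, rfl⟩
  obtain ⟨l1, l2, rfl⟩ := List.append_of_mem (hl.2 i)
  have hnd := hl.1
  rw [List.nodup_append] at hnd
  obtain ⟨n1, n2, n3⟩ := hnd
  rw [List.nodup_cons] at n2
  have h1 : i ∉ l1 := fun h => n3 i h i (List.mem_cons_self) rfl
  rw [ins_tm i l1 l2 h1 n2.1]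
  apply Submodule.subset_span
  refine ⟨_, ⟨?_, ?_⟩, rfl⟩
  · rw [List.nodup_append]
    refine ⟨n1.map (Option.some_injective _), ?_, ?_⟩
    · rw [List.nodup_cons, List.nodup_cons]
      refine ⟨by simp, by simpa using n2.1, n2.2.map (Option.some_injective _)⟩
    · intro a ha b hb hab
      subst hab
      rw [List.mem_map] at ha
      obtain ⟨a', ha', rfl⟩ := ha
      simp only [List.mem_cons, reduceCtorEq, Option.some.injEq, List.mem_map, false_or,
        exists_eq_right] at hb
      rcases hb with hb | hb
      · exact h1 (hb ▸ ha')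
      · exact n3 a' ha' a' (List.mem_cons_of_mem _ hb) rfl
  · intro o
    rcases o with _ | j
    · simp
    · have := hl.2 j
      simp only [List.mem_append, List.mem_cons] at this
      simp only [List.mem_append, List.mem_map, Option.some.injEq, exists_eq_right, List.mem_cons,
        reduceCtorEq, false_or]
      tauto

/-- the permutation with a new element `none` inserted before `i` -/
def insPerm {ι : Type} [DecidableEq ι] (i : ι) (σ : Equiv.Perm ι) : Equiv.Perm (Option ι) :=
  Equiv.swap none (some i) * Equiv.optionCongr σ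

lemma ins_ptw {ι : Type} [DecidableEq ι] (i : ι) (σ : Equiv.Perm ι) :
    ins i (ptw (κ := κ) R σ) = ptw R (insPerm i σ) := by
  classical
  funext w
  rw [ins_apply]
  have e0 : insPerm i σ none = some i := by simp [insPerm]
  have e1 : ∀ j, σ j = i → insPerm i σ (some j) = none := by
    intro j hj
    simp [insPerm, hj]
  have e2 : ∀ j, σ j ≠ i → insPerm i σ (some j) = some (σ j) := by
    intro j hj
    simp only [insPerm, Equiv.Perm.coe_mul, Function.comp_apply, Equiv.optionCongr_apply,
      Option.map_some]
    apply Equiv.swap_apply_of_ne_of_ne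
    · simp
    · simpa using hj
  by_cases h : (w none).2 = (w (some i)).1
  · rw [if_pos h]
    set u := Function.update (w ∘ some) i ((w none).1, (w (some i)).2) with hu
    have hu2 : ∀ j, (u j).2 = (w (some j)).2 := by
      intro j
      by_cases hj : j = i
      · subst hj; simp [hu]
      · simp [hu, Function.update_of_ne hj]
    have hu1 : ∀ j, j ≠ i → (u j).1 = (w (some j)).1 := by
      intro j hj
      simp [hu, Function.update_of_ne hj]
    have hui : (u i).1 = (w none).1 := by simp [hu]
    by_cases hc : ∀ j, (u j).2 = (u (σ j)).1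
    · rw [ptw_eq_one hc, ptw_eq_one]
      intro o
      rcases o with _ | j
      · rw [e0]; exact h
      · by_cases hj : σ j = i
        · rw [e1 j hj, ← hui, ← hj, ← hc j, hu2]
        · rw [e2 j hj, ← hu1 _ hj, ← hc j, hu2]
    · push Not at hc
      obtain ⟨j, hj⟩ := hc
      rw [ptw_eq_zero j hj, ptw_eq_zero (some j)]
      by_cases hji : σ j = i
      · rw [e1 j hji, ← hui, ← hu2, ← hji]; exact hj
      · rw [e2 j hji, ← hu2, ← hu1 _ hji]; exact hj
  · rw [if_neg h, ptw_eq_zero none]
    rw [e0]; exact h

lemma ins_PW {ι : Type} [DecidableEq ι] (i : ι) {f : (ι → κ × κ) → R} (hf : f ∈ PW κ R ι) :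
    ins i f ∈ PW κ R (Option ι) := by
  refine map_mem_of_span (ins i) ?_ hf
  rintro _ ⟨σ, rfl⟩
  show ins i (ptw R σ) ∈ _
  rw [ins_ptw]
  exact ptw_mem _

/-- cyclic rotation of a trace monomial -/
lemma tm_rot {ι : Type} (l1 l2 : List ι) (w : ι → κ × κ) : tm R (l1 ++ l2) w = tm R (l2 ++ l1) w := by
  unfold tm
  rw [List.map_append, List.prod_append, Matrix.trace_mul_comm, List.map_append, List.prod_append]

lemma CC_le_PW (ι : Type) [Finite ι] : CC κ R ι ≤ PW κ R ι := by
  classical
  induction ι using Finite.induction_empty_option with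
  | @of_equiv ι ι' e ih =>
    intro f hf
    have h1 := ih (ren_CC e.symm hf)
    have h2 := ren_PW e h1
    have : ren R e (ren R e.symm f) = f := by
      funext w
      show f ((w ∘ e) ∘ e.symm) = f w
      congr 1
      funext x; simp
    rwa [this] at h2
  | h_empty =>
    apply Submodule.span_le.mpr
    rintro _ ⟨l, hl, rfl⟩
    have hl0 : l = [] := by
      rcases l with _ | ⟨a, l⟩
      · rfl
      · exact a.elim
    subst hl0
    have : tm (κ := κ) R ([] : List PEmpty) = (Fintype.card κ : R) • ptw R (Equiv.refl PEmpty) := by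
      funext w
      rw [Pi.smul_apply, ptw_eq_one (fun i => i.elim)]
      simp [tm]
    rw [this]
    exact Submodule.smul_mem _ _ (ptw_mem _)
  | @h_option ι hF ih =>
    apply Submodule.span_le.mpr
    rintro _ ⟨l, hl, rfl⟩
    obtain ⟨l1, l2, rfl⟩ := List.append_of_mem (hl.2 none)
    have e1 : tm (κ := κ) R (l1 ++ none :: l2) = tm R (none :: (l2 ++ l1)) := by
      funext w
      rw [tm_rot]; rfl
    have hperm : (l1 ++ none :: l2).Perm (none :: (l2 ++ l1)) := by
      have : (l1 ++ none :: l2).Perm ((none :: l2) ++ l1) := List.perm_append_comm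
      simpa using this
    have hfull : Full (none :: (l2 ++ l1)) :=
      ⟨(hperm.nodup_iff).mp hl.1, fun i => (hperm.mem_iff).mp (hl.2 i)⟩
    rw [e1]
    generalize l2 ++ l1 = l at hfull
    obtain ⟨hnd, hmem⟩ := hfull
    rw [List.nodup_cons] at hnd
    have hex : ∃ l' : List ι, l = l'.map some := by
      refine ⟨l.filterMap id, ?_⟩
      have : ∀ o ∈ l, o ≠ none := fun o ho h => hnd.1 (h ▸ ho)
      clear hnd hmem
      induction l with
      | nil => rfl
      | cons o l ih2 =>
        have ho := this o List.mem_cons_self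
        obtain ⟨a, rfl⟩ := Option.ne_none_iff_exists'.mp ho
        simp only [List.filterMap_cons, id, List.map_cons]
        congr 1
        exact ih2 (fun o ho => this o (List.mem_cons_of_mem _ ho))
    obtain ⟨l', rfl⟩ := hex
    have hl' : Full l' := by
      refine ⟨List.Nodup.of_map _ hnd.2, fun i => ?_⟩
      have := hmem (some i)
      simpa using this
    rcases l' with _ | ⟨i, l''⟩
    · have hempty : IsEmpty ι := ⟨fun i => by have := hl'.2 i; simp at this⟩
      have : tm (κ := κ) R (none :: (List.map some ([] : List ι))) = ptw R (Equiv.refl (Option ι)) := by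
        funext w
        unfold tm
        simp only [List.map_nil, List.map_cons, List.prod_cons, List.prod_nil, mul_one]
        by_cases h : (w none).2 = (w none).1
        · rw [ptw_eq_one]
          · unfold EE
            rw [h, Matrix.trace_single_eq_same]
          · intro o
            rcases o with _ | j
            · exact h
            · exact (hempty.false j).elim
        · rw [ptw_eq_zero none h]
          unfold EE
          rw [Matrix.trace_single_eq_of_ne]
          exact fun h' => h h'.symm
      rw [this]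
      exact ptw_mem _
    · have hi : i ∉ l'' := (List.nodup_cons.mp hl'.1).1
      have := ins_tm (κ := κ) (R := R) i [] l'' (by simp) hi
      simp only [List.nil_append, List.map_nil] at this
      rw [List.map_cons, ← this]
      exact ins_PW i (ih (Submodule.subset_span ⟨_, hl', rfl⟩))

end Defs

end Pool.Agent.U688
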