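import Pool.Agent.U688.Cond

/-!
# A lower bound for the number of independent trace monomials
-/

set_option autoImplicit false

namespace Pool.Agent.U688

open Finset Matrix

section Trace

lemma trace_sq_le {m : Type*} [Fintype m] [DecidableEq m] (A : Matrix m m ℝ) (hA : A.IsHermitian) :
    A.trace ^ 2 ≤ (A.rank : ℝ) * (A * A).trace := by
  classical
  have h1 : A.trace = ∑ i, hA.eigenvalues i := by
    have := hA.trace_eq_sum_eigenvalues
    simpa using this
  have h2 : (A * A).trace = ∑ i, hA.eigenvalues i ^ 2 := by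
    conv_lhs => rw [hA.spectral_theorem, ← map_mul, Unitary.conjStarAlgAut_apply, diagonal_mul_diagonal]
    rw [Matrix.trace_mul_cycle]
    have hU : (star (hA.eigenvectorUnitary : Matrix m m ℝ)) * (hA.eigenvectorUnitary : Matrix m m ℝ) = 1 :=
      Unitary.coe_star_mul_self _
    rw [hU, one_mul]
    simp [Matrix.trace, sq]
  rw [h1, h2, hA.rank_eq_card_non_zero_eigs]
  have h3 := sq_sum_le_card_mul_sum_sq (s := Finset.univ.filter (fun i => hA.eigenvalues i ≠ 0))
    (f := hA.eigenvalues)
  rw [Finset.sum_filter_ne_zero] at h3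
  refine h3.trans ?_
  rw [Fintype.card_subtype]
  apply mul_le_mul_of_nonneg_left _ (Nat.cast_nonneg _)
  apply Finset.sum_le_sum_of_subset_of_nonneg (Finset.filter_subset _ _)
  intro i _ _
  exact sq_nonneg _

end Trace

section Count

variable {Λ : Type} [Fintype Λ] [DecidableEq Λ]

/-- the content of a word -/
def content {n : ℕ} (w : Fin n → Λ) : Λ → Fin (n + 1) :=
  fun x => ⟨(Finset.univ.filter (fun i => w i = x)).card, by
    refine Nat.lt_succ_of_le ((Finset.card_le_univ _).trans ?_)
    simp⟩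

lemma exists_perm {n : ℕ} (w w' : Fin n → Λ) (h : content w = content w') :
    ∃ θ : Equiv.Perm (Fin n), w = w' ∘ θ := by
  classical
  have h1 : ∀ x, Fintype.card {i // w i = x} = Fintype.card {i // w' i = x} := by
    intro x
    rw [Fintype.card_subtype, Fintype.card_subtype]
    have := congrArg Fin.val (congrFun h x)
    exact this
  let e : ∀ x, {i // w i = x} ≃ {i // w' i = x} := fun x => Fintype.equivOfCardEq (h1 x)
  refine ⟨(Equiv.sigmaFiberEquiv w).symm.trans ((Equiv.sigmaCongrRight e).trans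
    (Equiv.sigmaFiberEquiv w')), ?_⟩
  funext i
  simp only [Function.comp_apply, Equiv.trans_apply]
  exact ((e (w i)) ⟨i, rfl⟩).2.symm

lemma card_fix_le (n : ℕ) :
    Fintype.card {p : (Fin n → Λ) × Equiv.Perm (Fin n) // p.1 ∘ p.2 = p.1} ≤
      (n + 1) ^ (Fintype.card Λ) * n.factorial := by
  classical
  let rep : (Λ → Fin (n + 1)) → (Fin n → Λ) → (Fin n → Λ) := fun c w0 =>
    if h : ∃ w : Fin n → Λ, content w = c then h.choose else w0
  have hrep : ∀ w : Fin n → Λ, content (rep (content w) w) = content w := by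
    intro w
    have h : ∃ w' : Fin n → Λ, content w' = content w := ⟨w, rfl⟩
    have e : rep (content w) w = h.choose := dif_pos h
    rw [e]
    exact h.choose_spec
  have hrep2 : ∀ w w' : Fin n → Λ, content w = content w' → rep (content w) w = rep (content w') w' := by
    intro w w' hw
    have h : ∃ v : Fin n → Λ, content v = content w := ⟨w, rfl⟩
    have h' : ∃ v : Fin n → Λ, content v = content w' := ⟨w', rfl⟩
    have e : rep (content w) w = h.choose := dif_pos h
    have e' : rep (content w') w' = h'.choose := dif_pos h'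
    rw [e, e']
    congr 1
    funext v
    rw [hw]
  choose θ hθ using fun w : Fin n → Λ => exists_perm w (rep (content w) w) (hrep w).symm
  let φ : {p : (Fin n → Λ) × Equiv.Perm (Fin n) // p.1 ∘ p.2 = p.1} →
      (Λ → Fin (n + 1)) × Equiv.Perm (Fin n) := fun p => (content p.1.1, θ p.1.1 * p.1.2)
  have hinj : Function.Injective φ := by
    rintro ⟨⟨w, ρ⟩, hp⟩ ⟨⟨w', ρ'⟩, hp'⟩ h
    simp only [φ, Prod.mk.injEq] at h
    obtain ⟨hc, hη⟩ := h
    simp only at hp hp'
    have e1 : rep (content w) w ∘ (θ w * ρ) = w := by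
      rw [Equiv.Perm.coe_mul, ← Function.comp_assoc, ← hθ w, hp]
    have e2 : rep (content w') w' ∘ (θ w' * ρ') = w' := by
      rw [Equiv.Perm.coe_mul, ← Function.comp_assoc, ← hθ w', hp']
    have hw : w = w' := by
      rw [← e1, ← e2, hη, hrep2 w w' hc]
    subst hw
    have : ρ = ρ' := mul_left_cancel hη
    subst this
    rfl
  have := Fintype.card_le_of_injective φ hinj
  refine this.trans (le_of_eq ?_)
  rw [Fintype.card_prod, Fintype.card_fun, Fintype.card_perm]
  simp

end Count

section Bound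

variable {κ : Type} [Fintype κ] [DecidableEq κ]

/-- the number of common fixed words -/
noncomputable def fx (κ : Type) [Fintype κ] [DecidableEq κ] {n : ℕ} (σ τ : Equiv.Perm (Fin n)) : ℕ :=
  (Finset.univ.filter (fun a : Fin n → κ => a ∘ σ = a ∘ τ)).card

lemma gram_eq {n : ℕ} (σ τ : Equiv.Perm (Fin n)) :
    ∑ w : Fin n → κ × κ, ptw ℝ σ w * ptw ℝ τ w = (fx κ σ τ : ℝ) := by
  classical
  rw [← Equiv.sum_comp (Equiv.arrowProdEquivProdArrow (Fin n) (fun _ => κ) (fun _ => κ)).symm,
    Fintype.sum_prod_type]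
  unfold fx
  rw [Finset.card_filter]
  push_cast
  apply Finset.sum_congr rfl
  intro a _
  have hpt : ∀ (ρ : Equiv.Perm (Fin n)) (b : Fin n → κ),
      ptw ℝ ρ ((Equiv.arrowProdEquivProdArrow (Fin n) (fun _ => κ) (fun _ => κ)).symm (a, b)) =
        if b = a ∘ ρ then 1 else 0 := by
    intro ρ b
    by_cases h : b = a ∘ ρ
    · rw [if_pos h, ptw_eq_one]
      intro i
      exact congrFun h i
    · rw [if_neg h]
      have : ∃ i, b i ≠ (a ∘ ρ) i := by
        by_contra h'
        push Not at h'
        exact h (funext h')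
      obtain ⟨i, hi⟩ := this
      exact ptw_eq_zero i hi
  simp only [hpt]
  simp only [mul_ite, mul_one, mul_zero, Finset.sum_ite_eq', Finset.mem_univ, if_true]
  exact if_congr eq_comm rfl rfl

lemma fx_self {n : ℕ} (σ : Equiv.Perm (Fin n)) : fx κ σ σ = (Fintype.card κ) ^ n := by
  unfold fx
  simp

lemma fx_sq {n : ℕ} (σ τ : Equiv.Perm (Fin n)) : fx κ σ τ * fx κ σ τ = fx (κ × κ) σ τ := by
  classical
  unfold fx
  rw [← Finset.card_product]
  apply Finset.card_bij' (fun p _ => (Equiv.arrowProdEquivProdArrow (Fin n) (fun _ => κ) (fun _ => κ)).symm p)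
    (fun w _ => (Equiv.arrowProdEquivProdArrow (Fin n) (fun _ => κ) (fun _ => κ)) w)
  · rintro ⟨a, b⟩ h
    simp only [Finset.mem_product, Finset.mem_filter, Finset.mem_univ, true_and] at h ⊢
    funext i
    exact Prod.ext (congrFun h.1 i) (congrFun h.2 i)
  · intro w h
    simp only [Finset.mem_product, Finset.mem_filter, Finset.mem_univ, true_and] at h ⊢
    constructor
    · funext i
      exact congrArg Prod.fst (congrFun h i)
    · funext i
      exact congrArg Prod.snd (congrFun h i)
  · intro p _; exact Equiv.apply_symm_apply _ p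
  · intro w _; exact Equiv.symm_apply_apply _ w

lemma sum_fx (Λ : Type) [Fintype Λ] [DecidableEq Λ] (n : ℕ) :
    ∑ σ : Equiv.Perm (Fin n), ∑ τ : Equiv.Perm (Fin n), fx Λ σ τ ≤
      n.factorial * ((n + 1) ^ (Fintype.card Λ) * n.factorial) := by
  classical
  have h1 : ∀ σ : Equiv.Perm (Fin n), ∑ τ : Equiv.Perm (Fin n), fx Λ σ τ =
      Fintype.card {p : (Fin n → Λ) × Equiv.Perm (Fin n) // p.1 ∘ p.2 = p.1} := by
    intro σ
    rw [Fintype.card_subtype, Finset.card_filter, Fintype.sum_prod_type, Finset.sum_comm]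
    rw [← Equiv.sum_comp (Equiv.mulRight σ)]
    apply Finset.sum_congr rfl
    intro ρ _
    unfold fx
    rw [Finset.card_filter]
    apply Finset.sum_congr rfl
    intro a _
    congr 1
    apply propext
    simp only [Equiv.coe_mulRight, Equiv.Perm.coe_mul]
    constructor
    · intro h
      funext i
      have := congrFun h (σ.symm i)
      simp only [Function.comp_apply, Equiv.apply_symm_apply] at this
      simp only [Function.comp_apply]
      exact this.symm
    · intro h
      rw [← Function.comp_assoc, h]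
  rw [Finset.sum_congr rfl (fun σ _ => h1 σ), Finset.sum_const, Finset.card_univ, Fintype.card_perm]
  simp only [Fintype.card_fin, smul_eq_mul]
  exact Nat.mul_le_mul_left _ (card_fix_le n)

/-- lower bound for the dimension of the span of the trace monomials -/
theorem PW_lower (n : ℕ) :
    (Fintype.card κ) ^ (2 * n) ≤ Module.finrank ℝ (PW κ ℝ (Fin n)) * (n + 1) ^ (Fintype.card (κ × κ)) := by
  classical
  let A : Matrix (Equiv.Perm (Fin n)) (Fin n → κ × κ) ℝ := fun σ w => ptw ℝ σ w
  let G := A * Aᵀ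
  have hG : ∀ σ τ, G σ τ = (fx κ σ τ : ℝ) := by
    intro σ τ
    show ∑ w, A σ w * Aᵀ w τ = _
    exact gram_eq σ τ
  have hherm : G.IsHermitian := by
    show Gᴴ = G
    rw [Matrix.conjTranspose_eq_transpose_of_trivial]
    show (A * Aᵀ)ᵀ = A * Aᵀ
    rw [Matrix.transpose_mul, Matrix.transpose_transpose]
  have hrank : G.rank = Module.finrank ℝ (PW κ ℝ (Fin n)) := by
    show (A * Aᵀ).rank = _
    rw [Matrix.rank_self_mul_transpose, Matrix.rank_eq_finrank_span_row]
    rfl
  have htr : G.trace = (n.factorial : ℝ) * (Fintype.card κ : ℝ) ^ n := by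
    unfold Matrix.trace
    simp only [Matrix.diag_apply, hG, fx_self]
    rw [Finset.sum_const, Finset.card_univ, Fintype.card_perm]
    simp
  have htr2 : (G * G).trace ≤ (n.factorial : ℝ) * (((n : ℝ) + 1) ^ (Fintype.card (κ × κ)) * n.factorial) := by
    unfold Matrix.trace
    simp only [Matrix.diag_apply, Matrix.mul_apply]
    have hsym : ∀ σ τ, G σ τ * G τ σ = (fx (κ × κ) σ τ : ℝ) := by
      intro σ τ
      have : G τ σ = G σ τ := by
        have := congrFun (congrFun hherm σ) τ
        rw [Matrix.conjTranspose_apply] at this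
        simpa using this
      rw [this, hG, ← fx_sq]
      push_cast; rfl
    simp only [hsym]
    have := sum_fx (κ × κ) n
    exact_mod_cast this
  have key := trace_sq_le G hherm
  rw [hrank, htr] at key
  have hf : (0 : ℝ) < n.factorial := by exact_mod_cast Nat.factorial_pos n
  have h2 : ((n.factorial : ℝ) * (Fintype.card κ : ℝ) ^ n) ^ 2 ≤
      (Module.finrank ℝ (PW κ ℝ (Fin n)) : ℝ) *
        ((n.factorial : ℝ) * (((n : ℝ) + 1) ^ (Fintype.card (κ × κ)) * n.factorial)) :=
    key.trans (mul_le_mul_of_nonneg_left htr2 (Nat.cast_nonneg _))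
  have h3 : (n.factorial : ℝ) ^ 2 * ((Fintype.card κ : ℝ) ^ (2 * n)) ≤ (n.factorial : ℝ) ^ 2 *
      ((Module.finrank ℝ (PW κ ℝ (Fin n)) : ℝ) * ((n : ℝ) + 1) ^ (Fintype.card (κ × κ))) := by
    calc (n.factorial : ℝ) ^ 2 * ((Fintype.card κ : ℝ) ^ (2 * n))
        = ((n.factorial : ℝ) * (Fintype.card κ : ℝ) ^ n) ^ 2 := by ring
      _ ≤ _ := h2
      _ = _ := by ring
  have h4 := le_of_mul_le_mul_left h3 (by positivity)
  exact_mod_cast h4

end Bound

end Pool.Agent.U688
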