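import Mathlib

/-!
# The limit argument
-/

set_option autoImplicit false

namespace Pool.Agent.U688

open Filter Topology

theorem limit_of_bounds (k N : ℕ) (hk : 2 ≤ k) (t δ c z : ℕ → ℕ)
    (hlog : ∀ n, t (n + 1) ^ 2 ≤ t n * t (n + 2))
    (hlow : ∀ n, k ^ (2 * n) ≤ t n * (n + 1) ^ (k * k))
    (hup : ∀ n, t n ≤ k ^ (2 * n))
    (hδ1 : ∀ n, t n ≤ δ n + (n + 1) ^ N * (k * k - 1) ^ n) (hδ2 : ∀ n, δ n ≤ t n)
    (hc1 : ∀ n, t (n + 1) ≤ c n + (n + 1 + 1) ^ N * (k * k - 1) ^ (n + 1)) (hc2 : ∀ n, c n ≤ t (n + 1))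
    (hz : ∀ n, z n + δ n = c n) :
    ∃ α : ℝ, 0 ≤ α ∧ α ≤ 1 ∧ Tendsto (fun n => (z n : ℝ) / (c n : ℝ)) atTop (𝓝 α) := by
  have hkk : 4 ≤ k * k := by nlinarith
  have tpos : ∀ n, 0 < t n := by
    intro n
    by_contra h
    have h0 : t n = 0 := by omega
    have := hlow n
    rw [h0, zero_mul] at this
    have h1 : 0 < k ^ (2 * n) := pow_pos (by omega) _
    omega
  have tpos' : ∀ n, (0 : ℝ) < t n := fun n => by exact_mod_cast tpos n
  set ρ : ℕ → ℝ := fun n => (t (n + 1) : ℝ) / t n with hρ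
  have hmono : Monotone ρ := by
    apply monotone_nat_of_le_succ
    intro n
    simp only [hρ]
    rw [div_le_div_iff₀ (tpos' _) (tpos' _)]
    have := hlog n
    have h2 : ((t (n + 1) : ℝ)) ^ 2 ≤ t n * t (n + 2) := by exact_mod_cast this
    nlinarith
  have hpow : ∀ n j, (t n : ℝ) * (ρ n) ^ j ≤ t (n + j) := by
    intro n j
    induction j with
    | zero => simp
    | succ j ih =>
      have h1 : (t (n + (j + 1)) : ℝ) = t (n + j) * ρ (n + j) := by
        simp only [hρ]
        have := (tpos' (n + j)).ne'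
        field_simp
        rfl
      rw [h1, pow_succ, ← mul_assoc]
      have h2 : ρ n ≤ ρ (n + j) := hmono (Nat.le_add_right _ _)
      have h3 : 0 ≤ ρ n := by simp only [hρ]; positivity
      exact mul_le_mul ih h2 h3 (Nat.cast_nonneg _)
  have hbdd : ∀ n, ρ n ≤ (k : ℝ) ^ 2 := by
    intro n
    by_contra h
    push Not at h
    have hk0 : (0 : ℝ) < (k : ℝ) ^ 2 := by positivity
    have h1 : 1 < ρ n / (k : ℝ) ^ 2 := by rwa [one_lt_div hk0]
    have h2 := tendsto_pow_atTop_atTop_of_one_lt h1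
    obtain ⟨j, hj⟩ := (h2.eventually (eventually_gt_atTop ((k : ℝ) ^ (2 * n) / t n))).exists
    have h3 := hpow n j
    have h4 : (t (n + j) : ℝ) ≤ (k : ℝ) ^ (2 * (n + j)) := by exact_mod_cast hup (n + j)
    have h5 : (t n : ℝ) * (ρ n) ^ j ≤ (k : ℝ) ^ (2 * n) * ((k : ℝ) ^ 2) ^ j := by
      calc _ ≤ _ := h3.trans h4
        _ = _ := by rw [← pow_mul, ← pow_add]; ring_nf
    rw [div_pow, div_lt_div_iff₀ (tpos' n) (by positivity)] at hj
    nlinarith
  have hconv : Tendsto ρ atTop (𝓝 (⨆ n, ρ n)) :=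
    tendsto_atTop_ciSup hmono ⟨(k : ℝ) ^ 2, by rintro _ ⟨n, rfl⟩; exact hbdd n⟩
  set L := ⨆ n, ρ n with hL
  have hL0 : 0 < L := by
    have h1 : ρ 0 ≤ L := hmono.ge_of_tendsto hconv 0
    have h2 : 0 < ρ 0 := by simp only [hρ]; exact div_pos (tpos' _) (tpos' _)
    linarith
  -- error terms
  set ε : ℕ → ℝ := fun n => ((n : ℝ) + 1) ^ N * ((k * k - 1 : ℕ) : ℝ) ^ n with hε
  set r : ℝ := ((k * k - 1 : ℕ) : ℝ) / ((k * k : ℕ) : ℝ) with hr
  have hr0 : 0 ≤ r := by positivity
  have hr1 : r < 1 := by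
    rw [hr, div_lt_one (by exact_mod_cast (by omega : 0 < k * k))]
    exact_mod_cast (by omega : k * k - 1 < k * k)
  have herr : ∀ n, ε n / t n ≤ ((n : ℝ) + 1) ^ (N + k * k) * r ^ n := by
    intro n
    rw [div_le_iff₀ (tpos' n)]
    have h1 : (k : ℝ) ^ (2 * n) ≤ t n * ((n : ℝ) + 1) ^ (k * k) := by exact_mod_cast hlow n
    have h2 : ((k * k : ℕ) : ℝ) ^ n = (k : ℝ) ^ (2 * n) := by
      push_cast; rw [← sq, ← pow_mul]
    have h3 : (0 : ℝ) < (k : ℝ) ^ (2 * n) := by positivity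
    simp only [hε, hr]
    rw [div_pow, h2]
    rw [mul_div_assoc', div_mul_eq_mul_div, le_div_iff₀ h3]
    calc ((n : ℝ) + 1) ^ N * ((k * k - 1 : ℕ) : ℝ) ^ n * (k : ℝ) ^ (2 * n)
        ≤ ((n : ℝ) + 1) ^ N * ((k * k - 1 : ℕ) : ℝ) ^ n * (t n * ((n : ℝ) + 1) ^ (k * k)) := by
          apply mul_le_mul_of_nonneg_left h1; positivity
      _ = _ := by rw [pow_add]; ring
  have hlim0 : Tendsto (fun n : ℕ => ((n : ℝ) + 1) ^ (N + k * k) * r ^ n) atTop (𝓝 0) := by
    by_cases hr00 : r = 0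
    · exfalso
      rw [hr, div_eq_zero_iff] at hr00
      rcases hr00 with h | h
      · have : k * k - 1 = 0 := by exact_mod_cast h
        omega
      · have : k * k = 0 := by exact_mod_cast h
        omega
    have h1 := tendsto_pow_const_mul_const_pow_of_abs_lt_one (N + k * k) (r := r)
      (by rw [abs_of_nonneg hr0]; exact hr1)
    have h2 := (h1.comp (tendsto_add_atTop_nat 1)).mul_const (r⁻¹)
    rw [zero_mul] at h2
    refine h2.congr ?_
    intro n
    simp only [Function.comp_apply]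
    push_cast
    rw [pow_succ]
    field_simp
  have hε0 : Tendsto (fun n => ε n / t n) atTop (𝓝 0) :=
    squeeze_zero (fun n => by simp only [hε]; positivity) herr hlim0
  -- δ / t → 1
  have hδ : Tendsto (fun n => (δ n : ℝ) / t n) atTop (𝓝 1) := by
    have hlo : Tendsto (fun n => 1 - ε n / t n) atTop (𝓝 1) := by
      simpa using hε0.const_sub 1
    refine tendsto_of_tendsto_of_tendsto_of_le_of_le hlo tendsto_const_nhds ?_ ?_
    · intro n
      show 1 - ε n / t n ≤ (δ n : ℝ) / t n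
      rw [sub_le_iff_le_add, ← add_div, le_div_iff₀ (tpos' n), one_mul]
      have := hδ1 n
      simp only [hε]
      exact_mod_cast this
    · intro n
      show (δ n : ℝ) / t n ≤ 1
      rw [div_le_one (tpos' n)]
      exact_mod_cast hδ2 n
  have hcl : Tendsto (fun n => (c n : ℝ) / t n) atTop (𝓝 L) := by
    have h0 : Tendsto (fun n => ε (n + 1) / t n) atTop (𝓝 0) := by
      have h1 := (hε0.comp (tendsto_add_atTop_nat 1)).mul hconv
      rw [zero_mul] at h1
      refine h1.congr ?_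
      intro n
      simp only [Function.comp_apply, hρ]
      have := (tpos' (n + 1)).ne'
      have := (tpos' n).ne'
      field_simp
    have hlo : Tendsto (fun n => ρ n - ε (n + 1) / t n) atTop (𝓝 L) := by
      simpa using hconv.sub h0
    refine tendsto_of_tendsto_of_tendsto_of_le_of_le hlo hconv ?_ ?_
    · intro n
      show ρ n - ε (n + 1) / t n ≤ (c n : ℝ) / t n
      simp only [hρ]
      rw [sub_le_iff_le_add, ← add_div]
      apply div_le_div_of_nonneg_right _ (tpos' n).le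
      have := hc1 n
      simp only [hε]
      exact_mod_cast this
    · intro n
      show (c n : ℝ) / t n ≤ ρ n
      simp only [hρ]
      apply div_le_div_of_nonneg_right _ (tpos' n).le
      exact_mod_cast hc2 n
  have hratio : Tendsto (fun n => 1 - ((δ n : ℝ) / t n) / ((c n : ℝ) / t n)) atTop (𝓝 (1 - 1 / L)) :=
    (hδ.div hcl hL0.ne').const_sub 1
  have hev : ∀ᶠ n in atTop, 0 < (c n : ℝ) / t n := hcl.eventually (eventually_gt_nhds hL0)
  have hfin : Tendsto (fun n => (z n : ℝ) / (c n : ℝ)) atTop (𝓝 (1 - 1 / L)) := by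
    refine hratio.congr' ?_
    filter_upwards [hev] with n hn
    have hc0 : (c n : ℝ) ≠ 0 := by
      intro h; rw [h, zero_div] at hn; exact lt_irrefl _ hn
    have ht0 := (tpos' n).ne'
    have h1 : (z n : ℝ) + δ n = c n := by exact_mod_cast hz n
    have h2 : (z n : ℝ) = c n - δ n := by linarith
    rw [h2]
    field_simp
  refine ⟨1 - 1 / L, ?_, ?_, hfin⟩
  · exact ge_of_tendsto' hfin (fun n => by positivity)
  · apply le_of_tendsto' hfin
    intro n
    apply div_le_one_of_le₀ _ (Nat.cast_nonneg _)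
    have := hz n
    exact_mod_cast (by omega : z n ≤ c n)

end Pool.Agent.U688
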