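import Pool.Agent.U688.Perm
import Pool.Agent.U688.Alg

/-!
# Log-convexity of the dimensions of the spans of permutation tensors
-/

set_option autoImplicit false

namespace Pool.Agent.U688

open Finset Matrix

section Star

variable {κ : Type}

lemma star_mem {α β : Type} {f : (α → κ) → (β → κ) → ℂ} (hf : f ∈ PP κ ℂ α β) :
    (fun u v => (starRingEnd ℂ) (f v u)) ∈ PP κ ℂ β α := by
  classical
  induction hf using Submodule.span_induction with
  | mem x hx =>
    obtain ⟨e, rfl⟩ := hx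
    have : (fun u v => (starRingEnd ℂ) (pt κ ℂ e v u)) = pt κ ℂ e.symm := by
      funext u v
      simp only [pt]
      by_cases h : u = v ∘ e
      · have h' : v = u ∘ e.symm := by rw [h]; funext x; simp
        rw [if_pos h, if_pos h', map_one]
      · have h' : ¬ v = u ∘ e.symm := by
          intro h'; apply h; rw [h']; funext x; simp
        rw [if_neg h, if_neg h', map_zero]
    rw [this]
    exact pt_mem _
  | zero =>
    have : (fun (u : β → κ) (v : α → κ) => (starRingEnd ℂ) ((0 : (α → κ) → (β → κ) → ℂ) v u)) = 0 := by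
      funext u v; simp
    rw [this]; exact Submodule.zero_mem _
  | add x y hx hy ihx ihy =>
    have : (fun u v => (starRingEnd ℂ) ((x + y) v u)) = (fun u v => (starRingEnd ℂ) (x v u)) +
        (fun u v => (starRingEnd ℂ) (y v u)) := by
      funext u v; simp
    rw [this]; exact Submodule.add_mem _ ihx ihy
  | smul c x hx ih =>
    have : (fun u v => (starRingEnd ℂ) ((c • x) v u)) = ((starRingEnd ℂ) c) • (fun u v => (starRingEnd ℂ) (x v u)) := by
      funext u v; simp
    rw [this]; exact Submodule.smul_mem _ _ ih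

end Star

section Hom

variable {κ : Type} [Fintype κ] [DecidableEq κ]

/-- Morphism spaces: matrices from `(A, B)` to `(A', B')`, as tensors. -/
def cv (κ : Type) (A B A' B' : Type) :
    Matrix ((A' → κ) × (B' → κ)) ((A → κ) × (B → κ)) ℂ ≃ₗ[ℂ] ((A' ⊕ B → κ) → (A ⊕ B' → κ) → ℂ) where
  toFun M := fun u v => M (u ∘ Sum.inl, v ∘ Sum.inr) (v ∘ Sum.inl, u ∘ Sum.inr)
  invFun f := fun p q => f (Sum.elim p.1 q.2) (Sum.elim q.1 p.2)
  left_inv M := by
    funext p q
    rfl
  right_inv f := by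
    funext u v
    show f (Sum.elim (u ∘ Sum.inl) (u ∘ Sum.inr)) (Sum.elim (v ∘ Sum.inl) (v ∘ Sum.inr)) = f u v
    rw [Sum.elim_comp_inl_inr, Sum.elim_comp_inl_inr]
  map_add' _ _ := rfl
  map_smul' _ _ := rfl

/-- the space of morphisms -/
noncomputable def HH (κ : Type) (A B A' B' : Type) :
    Submodule ℂ (Matrix ((A' → κ) × (B' → κ)) ((A → κ) × (B → κ)) ℂ) :=
  (PP κ ℂ (A' ⊕ B) (A ⊕ B')).comap (cv κ A B A' B').toLinearMap

lemma mem_HH {A B A' B' : Type} {M : Matrix ((A' → κ) × (B' → κ)) ((A → κ) × (B → κ)) ℂ} :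
    M ∈ HH κ A B A' B' ↔ cv κ A B A' B' M ∈ PP κ ℂ (A' ⊕ B) (A ⊕ B') := Iff.rfl

lemma finrank_HH (A B A' B' : Type) [Finite A] [Finite B] [Finite A'] [Finite B'] :
    Module.finrank ℂ (HH κ A B A' B') = Module.finrank ℂ (PP κ ℂ (A' ⊕ B) (A ⊕ B')) := by
  apply LinearEquiv.finrank_eq
  exact (cv κ A B A' B').ofSubmodule' _ 

lemma finrank_PP_congr {α β α' β' : Type} (e1 : α ≃ α') (e2 : β ≃ β') :
    Module.finrank ℂ (PP κ ℂ α β) = Module.finrank ℂ (PP κ ℂ α' β') := by
  let L : ((α → κ) → (β → κ) → ℂ) ≃ₗ[ℂ] ((α' → κ) → (β' → κ) → ℂ) :=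
    { reidx ℂ e1 e2 with
      invFun := reidx ℂ e1.symm e2.symm
      left_inv := fun f => by
        funext a b
        show f ((a ∘ e1.symm) ∘ e1) ((b ∘ e2.symm) ∘ e2) = f a b
        congr 1 <;> (funext x; simp)
      right_inv := fun f => by
        funext a b
        show f ((a ∘ e1) ∘ e1.symm) ((b ∘ e2) ∘ e2.symm) = f a b
        congr 1 <;> (funext x; simp) }
  have h : PP κ ℂ α β = (PP κ ℂ α' β').comap L.toLinearMap := by
    ext f
    exact (reidx_mem_iff e1 e2).symm
  rw [h]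
  exact LinearEquiv.finrank_eq (L.ofSubmodule' _)

/-- auxiliary bijections -/
def eps1 (A' B' A'' B : Type) : (A'' ⊕ B') ⊕ (A' ⊕ B) ≃ (A' ⊕ B') ⊕ (A'' ⊕ B) where
  toFun x := match x with
    | Sum.inl (Sum.inl a) => Sum.inr (Sum.inl a)
    | Sum.inl (Sum.inr b) => Sum.inl (Sum.inr b)
    | Sum.inr (Sum.inl a) => Sum.inl (Sum.inl a)
    | Sum.inr (Sum.inr b) => Sum.inr (Sum.inr b)
  invFun x := match x with
    | Sum.inr (Sum.inl a) => Sum.inl (Sum.inl a)
    | Sum.inl (Sum.inr b) => Sum.inl (Sum.inr b)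
    | Sum.inl (Sum.inl a) => Sum.inr (Sum.inl a)
    | Sum.inr (Sum.inr b) => Sum.inr (Sum.inr b)
  left_inv x := by rcases x with (_ | _) | (_ | _) <;> rfl
  right_inv x := by rcases x with (_ | _) | (_ | _) <;> rfl

/-- auxiliary bijections -/
def eps2 (A' B' A B'' : Type) : (A' ⊕ B'') ⊕ (A ⊕ B') ≃ (A' ⊕ B') ⊕ (A ⊕ B'') where
  toFun x := match x with
    | Sum.inl (Sum.inl a) => Sum.inl (Sum.inl a)
    | Sum.inl (Sum.inr b) => Sum.inr (Sum.inr b)
    | Sum.inr (Sum.inl a) => Sum.inr (Sum.inl a)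
    | Sum.inr (Sum.inr b) => Sum.inl (Sum.inr b)
  invFun x := match x with
    | Sum.inl (Sum.inl a) => Sum.inl (Sum.inl a)
    | Sum.inr (Sum.inr b) => Sum.inl (Sum.inr b)
    | Sum.inr (Sum.inl a) => Sum.inr (Sum.inl a)
    | Sum.inl (Sum.inr b) => Sum.inr (Sum.inr b)
  left_inv x := by rcases x with (_ | _) | (_ | _) <;> rfl
  right_inv x := by rcases x with (_ | _) | (_ | _) <;> rfl

lemma mul_mem_HH {A B A' B' A'' B'' : Type} [Fintype A'] [DecidableEq A'] [Fintype B'] [DecidableEq B']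
    {M : Matrix ((A'' → κ) × (B'' → κ)) ((A' → κ) × (B' → κ)) ℂ}
    {N : Matrix ((A' → κ) × (B' → κ)) ((A → κ) × (B → κ)) ℂ}
    (hM : M ∈ HH κ A' B' A'' B'') (hN : N ∈ HH κ A B A' B') : M * N ∈ HH κ A B A'' B'' := by
  rw [mem_HH] at hM hN ⊢
  have h1 := reidx_mem (eps1 A' B' A'' B) (eps2 A' B' A B'') (tens_mem hM hN)
  have h2 := mcontr_mem (A' ⊕ B') h1
  convert h2 using 3 with u v
  show (∑ j, M (u ∘ Sum.inl, v ∘ Sum.inr) j * N j (v ∘ Sum.inl, u ∘ Sum.inr)) = _
  rw [← Equiv.sum_comp (Equiv.sumArrowEquivProdArrow A' B' κ)]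
  rfl

lemma star_mem_HH {A B A' B' : Type} {M : Matrix ((A' → κ) × (B' → κ)) ((A → κ) × (B → κ)) ℂ}
    (hM : M ∈ HH κ A B A' B') : Mᴴ ∈ HH κ A' B' A B := by
  rw [mem_HH] at hM ⊢
  exact star_mem hM

lemma one_mem_HH (A B : Type) [Fintype A] [DecidableEq A] [Fintype B] [DecidableEq B] :
    (1 : Matrix ((A → κ) × (B → κ)) ((A → κ) × (B → κ)) ℂ) ∈ HH κ A B A B := by
  classical
  rw [mem_HH]
  have : cv κ A B A B 1 = pt κ ℂ (Equiv.refl (A ⊕ B)) := by
    funext u v
    show (1 : Matrix ((A → κ) × (B → κ)) ((A → κ) × (B → κ)) ℂ) (u ∘ Sum.inl, v ∘ Sum.inr) (v ∘ Sum.inl, u ∘ Sum.inr) = _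
    rw [Matrix.one_apply]
    simp only [pt]
    by_cases h : v = u ∘ (Equiv.refl (A ⊕ B))
    · rw [if_pos h, if_pos]
      simp at h
      rw [h]
    · rw [if_neg h, if_neg]
      intro h'
      apply h
      simp only [Prod.mk.injEq] at h'
      funext x
      rcases x with x | x
      · exact (congrFun h'.1 x).symm
      · exact congrFun h'.2 x
  rw [this]
  exact pt_mem _

end Hom

section Block

variable {κ : Type} [Fintype κ] [DecidableEq κ]
variable (A B A' B' : Type) [Fintype A] [DecidableEq A] [Fintype B] [DecidableEq B]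
  [Fintype A'] [DecidableEq A'] [Fintype B'] [DecidableEq B']

/-- the index type of the block algebra -/
abbrev ZZ (κ A B A' B' : Type) : Type := ((A → κ) × (B → κ)) ⊕ ((A' → κ) × (B' → κ))

/-- the algebra of all morphisms between two objects -/
noncomputable def blockAlg (κ : Type) [Fintype κ] [DecidableEq κ] :
    Subalgebra ℂ (Matrix (ZZ κ A B A' B') (ZZ κ A B A' B') ℂ) where
  carrier := {M | M.toBlocks₁₁ ∈ HH κ A B A B ∧ M.toBlocks₁₂ ∈ HH κ A' B' A B ∧
    M.toBlocks₂₁ ∈ HH κ A B A' B' ∧ M.toBlocks₂₂ ∈ HH κ A' B' A' B'}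
  mul_mem' := by
    rintro M N ⟨h11, h12, h21, h22⟩ ⟨k11, k12, k21, k22⟩
    have e : M * N = fromBlocks
        (M.toBlocks₁₁ * N.toBlocks₁₁ + M.toBlocks₁₂ * N.toBlocks₂₁)
        (M.toBlocks₁₁ * N.toBlocks₁₂ + M.toBlocks₁₂ * N.toBlocks₂₂)
        (M.toBlocks₂₁ * N.toBlocks₁₁ + M.toBlocks₂₂ * N.toBlocks₂₁)
        (M.toBlocks₂₁ * N.toBlocks₁₂ + M.toBlocks₂₂ * N.toBlocks₂₂) := by
      conv_lhs => rw [← fromBlocks_toBlocks M, ← fromBlocks_toBlocks N, fromBlocks_multiply]
    rw [e]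
    simp only [Set.mem_setOf_eq, toBlocks_fromBlocks₁₁, toBlocks_fromBlocks₁₂,
      toBlocks_fromBlocks₂₁, toBlocks_fromBlocks₂₂]
    exact ⟨Submodule.add_mem _ (mul_mem_HH h11 k11) (mul_mem_HH h12 k21),
      Submodule.add_mem _ (mul_mem_HH h11 k12) (mul_mem_HH h12 k22),
      Submodule.add_mem _ (mul_mem_HH h21 k11) (mul_mem_HH h22 k21),
      Submodule.add_mem _ (mul_mem_HH h21 k12) (mul_mem_HH h22 k22)⟩
  one_mem' := by
    have e : (1 : Matrix (ZZ κ A B A' B') (ZZ κ A B A' B') ℂ) = fromBlocks 1 0 0 1 :=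
      (fromBlocks_one).symm
    rw [e]
    simp only [Set.mem_setOf_eq, toBlocks_fromBlocks₁₁, toBlocks_fromBlocks₁₂,
      toBlocks_fromBlocks₂₁, toBlocks_fromBlocks₂₂]
    exact ⟨one_mem_HH A B, Submodule.zero_mem _, Submodule.zero_mem _, one_mem_HH A' B'⟩
  add_mem' := by
    rintro M N ⟨h11, h12, h21, h22⟩ ⟨k11, k12, k21, k22⟩
    exact ⟨Submodule.add_mem _ h11 k11, Submodule.add_mem _ h12 k12,
      Submodule.add_mem _ h21 k21, Submodule.add_mem _ h22 k22⟩
  zero_mem' := ⟨Submodule.zero_mem _, Submodule.zero_mem _, Submodule.zero_mem _,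
    Submodule.zero_mem _⟩
  algebraMap_mem' := by
    intro c
    have e : (algebraMap ℂ (Matrix (ZZ κ A B A' B') (ZZ κ A B A' B') ℂ) c) =
        fromBlocks (c • 1) 0 0 (c • 1) := by
      rw [Algebra.algebraMap_eq_smul_one, ← fromBlocks_one, fromBlocks_smul]
      simp
    rw [e]
    simp only [Set.mem_setOf_eq, toBlocks_fromBlocks₁₁, toBlocks_fromBlocks₁₂,
      toBlocks_fromBlocks₂₁, toBlocks_fromBlocks₂₂]
    exact ⟨Submodule.smul_mem _ _ (one_mem_HH A B), Submodule.zero_mem _, Submodule.zero_mem _,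
      Submodule.smul_mem _ _ (one_mem_HH A' B')⟩

lemma mem_blockAlg {M : Matrix (ZZ κ A B A' B') (ZZ κ A B A' B') ℂ} :
    M ∈ blockAlg A B A' B' κ ↔ M.toBlocks₁₁ ∈ HH κ A B A B ∧ M.toBlocks₁₂ ∈ HH κ A' B' A B ∧
    M.toBlocks₂₁ ∈ HH κ A B A' B' ∧ M.toBlocks₂₂ ∈ HH κ A' B' A' B' := Iff.rfl

lemma star_mem_blockAlg {M : Matrix (ZZ κ A B A' B') (ZZ κ A B A' B') ℂ}
    (hM : M ∈ blockAlg A B A' B' κ) : Mᴴ ∈ blockAlg A B A' B' κ := by
  rw [mem_blockAlg] at hM ⊢
  obtain ⟨h11, h12, h21, h22⟩ := hM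
  exact ⟨star_mem_HH h11, star_mem_HH h21, star_mem_HH h12, star_mem_HH h22⟩

/-- **Cauchy-Schwarz for morphism spaces.** -/
theorem finrank_HH_sq_le :
    (Module.finrank ℂ (HH κ A' B' A B)) ^ 2 ≤
      Module.finrank ℂ (HH κ A B A B) * Module.finrank ℂ (HH κ A' B' A' B') := by
  have hss : IsSemisimpleRing (blockAlg A B A' B' κ) :=
    semisimple_of_star _ (fun x hx => star_mem_blockAlg A B A' B' hx)
  have fd : FiniteDimensional ℂ (blockAlg A B A' B' κ) := inferInstance
  let e : blockAlg A B A' B' κ := ⟨fromBlocks 1 0 0 0, by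
    rw [mem_blockAlg]
    simp only [toBlocks_fromBlocks₁₁, toBlocks_fromBlocks₁₂,
      toBlocks_fromBlocks₂₁, toBlocks_fromBlocks₂₂]
    exact ⟨one_mem_HH A B, Submodule.zero_mem _, Submodule.zero_mem _, Submodule.zero_mem _⟩⟩
  let f : blockAlg A B A' B' κ := ⟨fromBlocks 0 0 0 1, by
    rw [mem_blockAlg]
    simp only [toBlocks_fromBlocks₁₁, toBlocks_fromBlocks₁₂,
      toBlocks_fromBlocks₂₁, toBlocks_fromBlocks₂₂]
    exact ⟨Submodule.zero_mem _, Submodule.zero_mem _, Submodule.zero_mem _, one_mem_HH A' B'⟩⟩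
  have he : e * e = e := by
    apply Subtype.ext
    show fromBlocks 1 0 0 0 * fromBlocks 1 0 0 0 = fromBlocks 1 0 0 0
    rw [fromBlocks_multiply]; simp
  have hf : f * f = f := by
    apply Subtype.ext
    show fromBlocks 0 0 0 1 * fromBlocks 0 0 0 1 = fromBlocks 0 0 0 1
    rw [fromBlocks_multiply]; simp
  have key := corner_cs he hf
  have d1 : Module.finrank ℂ (LinearMap.range (LR e f)) = Module.finrank ℂ (HH κ A' B' A B) := by
    let ψ : HH κ A' B' A B →ₗ[ℂ] blockAlg A B A' B' κ :=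
      { toFun := fun N => ⟨fromBlocks 0 N.1 0 0, by
          rw [mem_blockAlg]
          simp only [toBlocks_fromBlocks₁₁, toBlocks_fromBlocks₁₂,
            toBlocks_fromBlocks₂₁, toBlocks_fromBlocks₂₂]
          exact ⟨Submodule.zero_mem _, N.2, Submodule.zero_mem _, Submodule.zero_mem _⟩⟩
        map_add' := fun N N' => by
          apply Subtype.ext
          show fromBlocks 0 (N.1 + N'.1) 0 0 = fromBlocks 0 N.1 0 0 + fromBlocks 0 N'.1 0 0
          rw [fromBlocks_add]; simp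
        map_smul' := fun c N => by
          apply Subtype.ext
          show fromBlocks 0 (c • N.1) 0 0 = c • fromBlocks 0 N.1 0 0
          rw [fromBlocks_smul]; simp }
    have hinj : Function.Injective ψ := by
      intro N N' h
      have := congrArg (fun M : blockAlg A B A' B' κ => M.1.toBlocks₁₂) h
      apply Subtype.ext
      simpa [ψ] using this
    have hr : LinearMap.range (LR e f) = LinearMap.range ψ := by
      ext M
      constructor
      · rintro ⟨N, rfl⟩
        refine ⟨⟨N.1.toBlocks₁₂, N.2.2.1⟩, ?_⟩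
        apply Subtype.ext
        show fromBlocks 0 N.1.toBlocks₁₂ 0 0 = ((LR e f) N).1
        rw [LR_apply]
        show _ = fromBlocks 1 0 0 0 * N.1 * fromBlocks 0 0 0 1
        conv_rhs => rw [← fromBlocks_toBlocks N.1, fromBlocks_multiply, fromBlocks_multiply]
        simp
      · rintro ⟨N, rfl⟩
        refine ⟨ψ N, ?_⟩
        apply Subtype.ext
        rw [LR_apply]
        show fromBlocks 1 0 0 0 * fromBlocks 0 N.1 0 0 * fromBlocks 0 0 0 1 = fromBlocks 0 N.1 0 0
        rw [fromBlocks_multiply, fromBlocks_multiply]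
        simp
    rw [hr, LinearMap.finrank_range_of_inj hinj]
  have d2 : Module.finrank ℂ (LinearMap.range (LR e e)) = Module.finrank ℂ (HH κ A B A B) := by
    let ψ : HH κ A B A B →ₗ[ℂ] blockAlg A B A' B' κ :=
      { toFun := fun N => ⟨fromBlocks N.1 0 0 0, by
          rw [mem_blockAlg]
          simp only [toBlocks_fromBlocks₁₁, toBlocks_fromBlocks₁₂,
            toBlocks_fromBlocks₂₁, toBlocks_fromBlocks₂₂]
          exact ⟨N.2, Submodule.zero_mem _, Submodule.zero_mem _, Submodule.zero_mem _⟩⟩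
        map_add' := fun N N' => by
          apply Subtype.ext
          show fromBlocks (N.1 + N'.1) 0 0 0 = fromBlocks N.1 0 0 0 + fromBlocks N'.1 0 0 0
          rw [fromBlocks_add]; simp
        map_smul' := fun c N => by
          apply Subtype.ext
          show fromBlocks (c • N.1) 0 0 0 = c • fromBlocks N.1 0 0 0
          rw [fromBlocks_smul]; simp }
    have hinj : Function.Injective ψ := by
      intro N N' h
      have := congrArg (fun M : blockAlg A B A' B' κ => M.1.toBlocks₁₁) h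
      apply Subtype.ext
      simpa [ψ] using this
    have hr : LinearMap.range (LR e e) = LinearMap.range ψ := by
      ext M
      constructor
      · rintro ⟨N, rfl⟩
        refine ⟨⟨N.1.toBlocks₁₁, N.2.1⟩, ?_⟩
        apply Subtype.ext
        show fromBlocks N.1.toBlocks₁₁ 0 0 0 = ((LR e e) N).1
        rw [LR_apply]
        show _ = fromBlocks 1 0 0 0 * N.1 * fromBlocks 1 0 0 0
        conv_rhs => rw [← fromBlocks_toBlocks N.1, fromBlocks_multiply, fromBlocks_multiply]
        simp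
      · rintro ⟨N, rfl⟩
        refine ⟨ψ N, ?_⟩
        apply Subtype.ext
        rw [LR_apply]
        show fromBlocks 1 0 0 0 * fromBlocks N.1 0 0 0 * fromBlocks 1 0 0 0 = fromBlocks N.1 0 0 0
        rw [fromBlocks_multiply, fromBlocks_multiply]
        simp
    rw [hr, LinearMap.finrank_range_of_inj hinj]
  have d3 : Module.finrank ℂ (LinearMap.range (LR f f)) = Module.finrank ℂ (HH κ A' B' A' B') := by
    let ψ : HH κ A' B' A' B' →ₗ[ℂ] blockAlg A B A' B' κ :=
      { toFun := fun N => ⟨fromBlocks 0 0 0 N.1, by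
          rw [mem_blockAlg]
          simp only [toBlocks_fromBlocks₁₁, toBlocks_fromBlocks₁₂,
            toBlocks_fromBlocks₂₁, toBlocks_fromBlocks₂₂]
          exact ⟨Submodule.zero_mem _, Submodule.zero_mem _, Submodule.zero_mem _, N.2⟩⟩
        map_add' := fun N N' => by
          apply Subtype.ext
          show fromBlocks 0 0 0 (N.1 + N'.1) = fromBlocks 0 0 0 N.1 + fromBlocks 0 0 0 N'.1
          rw [fromBlocks_add]; simp
        map_smul' := fun c N => by
          apply Subtype.ext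
          show fromBlocks 0 0 0 (c • N.1) = c • fromBlocks 0 0 0 N.1
          rw [fromBlocks_smul]; simp }
    have hinj : Function.Injective ψ := by
      intro N N' h
      have := congrArg (fun M : blockAlg A B A' B' κ => M.1.toBlocks₂₂) h
      apply Subtype.ext
      simpa [ψ] using this
    have hr : LinearMap.range (LR f f) = LinearMap.range ψ := by
      ext M
      constructor
      · rintro ⟨N, rfl⟩
        refine ⟨⟨N.1.toBlocks₂₂, N.2.2.2.2⟩, ?_⟩
        apply Subtype.ext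
        show fromBlocks 0 0 0 N.1.toBlocks₂₂ = ((LR f f) N).1
        rw [LR_apply]
        show _ = fromBlocks 0 0 0 1 * N.1 * fromBlocks 0 0 0 1
        conv_rhs => rw [← fromBlocks_toBlocks N.1, fromBlocks_multiply, fromBlocks_multiply]
        simp
      · rintro ⟨N, rfl⟩
        refine ⟨ψ N, ?_⟩
        apply Subtype.ext
        rw [LR_apply]
        show fromBlocks 0 0 0 1 * fromBlocks 0 0 0 N.1 * fromBlocks 0 0 0 1 = fromBlocks 0 0 0 N.1
        rw [fromBlocks_multiply, fromBlocks_multiply]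
        simp
    rw [hr, LinearMap.finrank_range_of_inj hinj]
  rwa [d1, d2, d3] at key

end Block

/-- the dimension of the span of the permutation tensors with `n` slots. -/
noncomputable def tc (k n : ℕ) : ℕ := Module.finrank ℂ (PP (Fin k) ℂ (Fin n) (Fin n))

theorem tc_logconv (k n : ℕ) : (tc k (n + 1)) ^ 2 ≤ tc k n * tc k (n + 2) := by
  have h := finrank_HH_sq_le (κ := Fin k) (Fin n) Empty (Fin (n + 1)) Unit
  rw [finrank_HH, finrank_HH, finrank_HH] at h
  have e1 : Fin n ⊕ Empty ≃ Fin n := Equiv.sumEmpty _ _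
  have e2 : Fin n ⊕ Unit ≃ Fin (n + 1) := Fintype.equivOfCardEq (by simp)
  have e3 : Fin (n + 1) ⊕ Empty ≃ Fin (n + 1) := Equiv.sumEmpty _ _
  have e4 : Fin (n + 1) ⊕ Unit ≃ Fin (n + 2) := Fintype.equivOfCardEq (by simp)
  rw [finrank_PP_congr e2 e3, finrank_PP_congr e1 e1, finrank_PP_congr e4 e4] at h
  exact h

end Pool.Agent.U688
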