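import Mathlib

/-!
# The rank of an integer family does not depend on the field of characteristic zero
-/

set_option autoImplicit false

namespace Pool.Agent.U688

lemma rk_le {I W : Type*} [Finite W] (v : I → W → ℤ) (F F' : Type*) [Field F] [CharZero F]
    [Field F'] [CharZero F'] :
    Module.finrank F (Submodule.span F (Set.range (fun i => (fun w => (v i w : F))))) ≤
      Module.finrank F' (Submodule.span F' (Set.range (fun i => (fun w => (v i w : F'))))) := by
  classical
  have := Fintype.ofFinite W
  obtain ⟨b, hb, hspan, hli⟩ := exists_linearIndependent F (Set.range (fun i => (fun w => (v i w : F))))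
  have hJ : ∀ x : b, ∃ i, (fun w => (v i w : F)) = x.1 := fun x => hb x.2
  choose J hJ using hJ
  have h1 : LinearIndependent F (fun x : b => (algebraMap ℤ F ∘ v (J x))) := by
    have : (fun x : b => (algebraMap ℤ F ∘ v (J x))) = ((↑) : b → (W → F)) := by
      funext x
      rw [← hJ x]
      rfl
    rw [this]
    exact hli
  have h2 : LinearIndependent ℤ (fun x : b => v (J x)) := linearIndependent_algebraMap_comp_iff.mp h1
  have h3 : LinearIndependent F' (fun x : b => (algebraMap ℤ F' ∘ v (J x))) :=
    linearIndependent_algebraMap_comp_iff.mpr h2
  have hfin : Finite b := hli.finite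
  have := Fintype.ofFinite b
  have h4 : Module.finrank F (Submodule.span F (Set.range (fun i => (fun w => (v i w : F))))) =
      Fintype.card b := by
    rw [← hspan]
    exact finrank_span_set_eq_card hli |>.trans (Set.toFinset_card b)
  rw [h4]
  let S := Submodule.span F' (Set.range (fun i => (fun w => (v i w : F'))))
  have hmem : ∀ x : b, (algebraMap ℤ F' ∘ v (J x)) ∈ S := fun x =>
    Submodule.subset_span ⟨J x, rfl⟩
  have h5 : LinearIndependent F' (fun x : b => (⟨_, hmem x⟩ : S)) := by
    apply LinearIndependent.of_comp S.subtype
    exact h3
  exact h5.fintype_card_le_finrank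

theorem rk_eq {I W : Type*} [Finite W] (v : I → W → ℤ) (F F' : Type*) [Field F] [CharZero F]
    [Field F'] [CharZero F'] :
    Module.finrank F (Submodule.span F (Set.range (fun i => (fun w => (v i w : F))))) =
      Module.finrank F' (Submodule.span F' (Set.range (fun i => (fun w => (v i w : F'))))) :=
  le_antisymm (rk_le v F F') (rk_le v F' F)

end Pool.Agent.U688
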