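import Pool.Agent.U688.Orth
import Pool.Agent.U688.LogConv
import Pool.Agent.U688.Gram
import Pool.Agent.U688.Rank
import Pool.Agent.U688.Lim

/-!
# Codimensions of matrix algebras
-/

set_option autoImplicit false

namespace Pool.Agent.U688

open Finset Matrix

section General

lemma finrank_span_le_of_map {F V V' I : Type*} [Field F] [AddCommGroup V] [Module F V]
    [AddCommGroup V'] [Module F V'] [Finite I] (v : I → V) (v' : I → V') (A : V →ₗ[F] V')
    (hA : ∀ i, A (v i) = v' i) :
    Module.finrank F (Submodule.span F (Set.range v')) ≤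
      Module.finrank F (Submodule.span F (Set.range v)) := by
  have h1 : Submodule.span F (Set.range v') = (Submodule.span F (Set.range v)).map A := by
    rw [Submodule.map_span, ← Set.range_comp]
    congr 2
    funext i
    exact (hA i).symm
  have hfin : FiniteDimensional F (Submodule.span F (Set.range v)) :=
    FiniteDimensional.span_of_finite F (Set.finite_range v)
  rw [h1]
  exact Submodule.finrank_map_le A _

lemma finrank_span_eq_of_map {F V V' I : Type*} [Field F] [AddCommGroup V] [Module F V]
    [AddCommGroup V'] [Module F V'] [Finite I] (v : I → V) (v' : I → V') (A : V →ₗ[F] V')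
    (B : V' →ₗ[F] V) (hA : ∀ i, A (v i) = v' i) (hB : ∀ i, B (v' i) = v i) :
    Module.finrank F (Submodule.span F (Set.range v)) =
      Module.finrank F (Submodule.span F (Set.range v')) :=
  le_antisymm (finrank_span_le_of_map v' v B hB) (finrank_span_le_of_map v v' A hA)

end General

section Codim

variable {k : ℕ} {F : Type} [Field F]

/-- product along a permutation -/
def mono (k : ℕ) (F : Type) [Field F] {n : ℕ} (σ : Equiv.Perm (Fin n)) :
    (Fin n → Matrix (Fin k) (Fin k) F) → Matrix (Fin k) (Fin k) F :=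
  fun x => (List.ofFn (fun i => x (σ i))).prod

/-- its values on words of matrix units -/
def mw (k : ℕ) (F : Type) [Field F] {n : ℕ} (σ : Equiv.Perm (Fin n)) :
    (Fin n → Fin k × Fin k) → Matrix (Fin k) (Fin k) F :=
  fun w => (List.ofFn (fun i => EE F (w (σ i)))).prod

lemma mono_expand {n : ℕ} (σ : Equiv.Perm (Fin n)) (x : Fin n → Matrix (Fin k) (Fin k) F) :
    mono k F σ x = ∑ w : Fin n → Fin k × Fin k, (∏ i, x i (w i).1 (w i).2) • mw k F σ w := by
  have h1 : ∀ i, x (σ i) = ∑ p : Fin k × Fin k, x (σ i) p.1 p.2 • EE F p := by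
    intro i
    conv_lhs => rw [Matrix.matrix_eq_sum_single (x (σ i))]
    rw [Fintype.sum_prod_type]
    apply Finset.sum_congr rfl
    intro a _
    apply Finset.sum_congr rfl
    intro b _
    unfold EE
    rw [Matrix.smul_single, smul_eq_mul, mul_one]
  have h2 : mono k F σ x = MultilinearMap.mkPiAlgebraFin F n (Matrix (Fin k) (Fin k) F)
      (fun i => ∑ p : Fin k × Fin k, x (σ i) p.1 p.2 • EE F p) := by
    rw [MultilinearMap.mkPiAlgebraFin_apply]
    unfold mono
    congr 2
    funext i
    exact h1 i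
  rw [h2, MultilinearMap.map_sum]
  symm
  rw [← Equiv.sum_comp (Equiv.arrowCongr σ (Equiv.refl (Fin k × Fin k)))]
  apply Finset.sum_congr rfl
  intro r _
  rw [MultilinearMap.map_smul_univ, MultilinearMap.mkPiAlgebraFin_apply]
  congr 1
  · rw [← Equiv.prod_comp σ]
    apply Finset.prod_congr rfl
    intro i _
    simp [Equiv.arrowCongr]
  · unfold mw
    congr 2
    funext i
    simp [Equiv.arrowCongr]

/-- evaluation on matrix units -/
def resL (k : ℕ) (F : Type) [Field F] (n : ℕ) (M' : Type) [AddCommGroup M'] [Module F M'] :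
    ((Fin n → Matrix (Fin k) (Fin k) F) → M') →ₗ[F] ((Fin n → Fin k × Fin k) → M') where
  toFun f := fun w => f (fun i => EE F (w i))
  map_add' _ _ := rfl
  map_smul' _ _ := rfl

/-- multilinear extension -/
noncomputable def extL (k : ℕ) (F : Type) [Field F] (n : ℕ) (M' : Type) [AddCommGroup M'] [Module F M'] :
    ((Fin n → Fin k × Fin k) → M') →ₗ[F] ((Fin n → Matrix (Fin k) (Fin k) F) → M') where
  toFun h := fun x => ∑ w : Fin n → Fin k × Fin k, (∏ i, x i (w i).1 (w i).2) • h w
  map_add' h h' := by funext x; simp [Finset.sum_add_distrib]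
  map_smul' c h := by funext x; simp [Finset.smul_sum, smul_comm c]

lemma finrank_mono_eq {n : ℕ} (M' : Type) [AddCommGroup M'] [Module F M']
    (φ : Matrix (Fin k) (Fin k) F →ₗ[F] M') :
    Module.finrank F (Submodule.span F (Set.range (fun σ : Equiv.Perm (Fin n) =>
      fun x => φ (mono k F σ x)))) =
    Module.finrank F (Submodule.span F (Set.range (fun σ : Equiv.Perm (Fin n) =>
      fun w => φ (mw k F σ w)))) := by
  apply finrank_span_eq_of_map _ _ (resL k F n M') (extL k F n M')
  · intro σ
    rfl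
  · intro σ
    funext x
    show (∑ w : Fin n → Fin k × Fin k, (∏ i, x i (w i).1 (w i).2) • φ (mw k F σ w)) = _
    rw [mono_expand, map_sum]
    apply Finset.sum_congr rfl
    intro w _
    rw [map_smul]

/-- the traceless part, times `k` -/
noncomputable def LL (k : ℕ) (F : Type) [Field F] :
    Matrix (Fin k) (Fin k) F →ₗ[F] Matrix (Fin k) (Fin k) F :=
  (k : F) • LinearMap.id - (LinearMap.toSpanSingleton F (Matrix (Fin k) (Fin k) F) 1).comp
    (Matrix.traceLinearMap (Fin k) F F)

lemma LL_apply (m : Matrix (Fin k) (Fin k) F) : LL k F m = (k : F) • m - m.trace • 1 := by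
  simp [LL]

/-- the quotient map by the center -/
noncomputable abbrev qZ (k : ℕ) (F : Type) [Field F] :=
  Submodule.mkQ (Subalgebra.toSubmodule (Subalgebra.center F (Matrix (Fin k) (Fin k) F)))

lemma center_le (k : ℕ) (F : Type) [Field F] :
    Subalgebra.toSubmodule (Subalgebra.center F (Matrix (Fin k) (Fin k) F)) ≤ LinearMap.ker (LL k F) := by
  intro m hm
  rw [LinearMap.mem_ker, LL_apply]
  have hm' : m ∈ Subalgebra.center F (Matrix (Fin k) (Fin k) F) := hm
  rw [Subalgebra.mem_center_iff] at hm'
  have h1 : ∃ c : F, m = c • (1 : Matrix (Fin k) (Fin k) F) := by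
    have h2 : m ∈ Set.center (Matrix (Fin k) (Fin k) F) := by
      rw [Semigroup.mem_center_iff]
      intro g
      exact (hm' g)
    rw [Matrix.center_eq_range] at h2
    obtain ⟨c, hc⟩ := h2
    refine ⟨c, ?_⟩
    rw [← hc, Matrix.scalar_apply, Matrix.smul_one_eq_diagonal]
  obtain ⟨c, rfl⟩ := h1
  rw [Matrix.trace_smul, Matrix.trace_one]
  simp only [Fintype.card_fin, smul_eq_mul, smul_smul]
  rw [mul_comm, sub_self]

lemma finrank_qZ_eq [CharZero F] (hk : 1 ≤ k) (n : ℕ) :
    Module.finrank F (Submodule.span F (Set.range (fun σ : Equiv.Perm (Fin n) =>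
      fun w => qZ k F (mw k F σ w)))) =
    Module.finrank F (Submodule.span F (Set.range (fun σ : Equiv.Perm (Fin n) =>
      fun w => LL k F (mw k F σ w)))) := by
  have hk0 : (k : F) ≠ 0 := by
    have : k ≠ 0 := by omega
    exact_mod_cast this
  apply finrank_span_eq_of_map _ _
    (LinearMap.compLeft ((Subalgebra.toSubmodule (Subalgebra.center F (Matrix (Fin k) (Fin k) F))).liftQ
      (LL k F) (center_le k F)) (Fin n → Fin k × Fin k))
    (LinearMap.compLeft ((k : F)⁻¹ • qZ k F) (Fin n → Fin k × Fin k))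
  · intro σ
    funext w
    show ((Subalgebra.toSubmodule (Subalgebra.center F (Matrix (Fin k) (Fin k) F))).liftQ
      (LL k F) (center_le k F)) (qZ k F (mw k F σ w)) = _
    rw [Submodule.mkQ_apply, Submodule.liftQ_apply]
  · intro σ
    funext w
    show ((k : F)⁻¹ • qZ k F) (LL k F (mw k F σ w)) = qZ k F (mw k F σ w)
    rw [LL_apply, LinearMap.smul_apply, map_sub, map_smul, map_smul]
    have h1 : qZ k F 1 = 0 := by
      rw [Submodule.mkQ_apply, Submodule.Quotient.mk_eq_zero]
      exact Subalgebra.one_mem _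
    rw [h1, smul_zero, sub_zero, smul_smul, inv_mul_cancel₀ hk0, one_smul]

/-- integer version of the values -/
def vz (k : ℕ) {n : ℕ} (σ : Equiv.Perm (Fin n)) (w : Fin n → Fin k × Fin k) : Matrix (Fin k) (Fin k) ℤ :=
  (List.ofFn (fun i => Matrix.single (w (σ i)).1 (w (σ i)).2 (1 : ℤ))).prod

/-- integer family -/
def vzI (k n : ℕ) (σ : Equiv.Perm (Fin n)) (p : (Fin n → Fin k × Fin k) × (Fin k × Fin k)) : ℤ :=
  vz k σ p.1 p.2.1 p.2.2

/-- integer family -/
def vzJ (k n : ℕ) (σ : Equiv.Perm (Fin n)) (p : (Fin n → Fin k × Fin k) × (Fin k × Fin k)) : ℤ :=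
  (k : ℤ) * vz k σ p.1 p.2.1 p.2.2 - (vz k σ p.1).trace * (if p.2.1 = p.2.2 then 1 else 0)

lemma mw_eq_cast {n : ℕ} (σ : Equiv.Perm (Fin n)) (w : Fin n → Fin k × Fin k) (a b : Fin k) :
    mw k F σ w a b = ((vz k σ w a b : ℤ) : F) := by
  have h1 : (Int.castRingHom F).mapMatrix (vz k σ w) = mw k F σ w := by
    unfold vz mw
    rw [map_list_prod, List.map_ofFn]
    congr 2
    funext i
    simp only [Function.comp_apply, RingHom.mapMatrix_apply]
    unfold EE
    rw [Matrix.map_single]
    simp
  rw [← h1]
  simp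

lemma finrank_mw_indep (n : ℕ) (F F' : Type) [Field F] [CharZero F] [Field F'] [CharZero F'] :
    Module.finrank F (Submodule.span F (Set.range (fun σ : Equiv.Perm (Fin n) => mw k F σ))) =
    Module.finrank F' (Submodule.span F' (Set.range (fun σ : Equiv.Perm (Fin n) => mw k F' σ))) := by
  have key : ∀ (F : Type) [Field F] [CharZero F],
      Module.finrank F (Submodule.span F (Set.range (fun σ : Equiv.Perm (Fin n) => mw k F σ))) =
      Module.finrank F (Submodule.span F (Set.range (fun σ : Equiv.Perm (Fin n) =>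
        (fun p => ((vzI k n σ p : ℤ) : F))))) := by
    intro F _ _
    apply finrank_span_eq_of_map _ _
      ({ toFun := fun h p => h p.1 p.2.1 p.2.2
         map_add' := fun _ _ => rfl
         map_smul' := fun _ _ => rfl } : ((Fin n → Fin k × Fin k) → Matrix (Fin k) (Fin k) F) →ₗ[F]
          ((Fin n → Fin k × Fin k) × (Fin k × Fin k) → F))
      ({ toFun := fun h w => fun a b => h (w, (a, b))
         map_add' := fun _ _ => rfl
         map_smul' := fun _ _ => rfl } : ((Fin n → Fin k × Fin k) × (Fin k × Fin k) → F) →ₗ[F]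
          ((Fin n → Fin k × Fin k) → Matrix (Fin k) (Fin k) F))
    · intro σ
      funext p
      exact mw_eq_cast σ p.1 p.2.1 p.2.2
    · intro σ
      funext w a b
      exact (mw_eq_cast σ w a b).symm
  rw [key F, key F']
  exact rk_eq (vzI k n) F F'

lemma LL_eq_cast {n : ℕ} (σ : Equiv.Perm (Fin n)) (w : Fin n → Fin k × Fin k) (a b : Fin k) :
    LL k F (mw k F σ w) a b =
      (((k : ℤ) * vz k σ w a b - (vz k σ w).trace * (if a = b then 1 else 0) : ℤ) : F) := by
  rw [LL_apply]
  have h1 : (mw k F σ w).trace = (((vz k σ w).trace : ℤ) : F) := by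
    unfold Matrix.trace
    push_cast
    apply Finset.sum_congr rfl
    intro i _
    exact mw_eq_cast σ w i i
  rw [Matrix.sub_apply, Matrix.smul_apply, Matrix.smul_apply, h1, mw_eq_cast, Matrix.one_apply]
  push_cast
  simp

lemma finrank_LL_indep (n : ℕ) (F F' : Type) [Field F] [CharZero F] [Field F'] [CharZero F'] :
    Module.finrank F (Submodule.span F (Set.range (fun σ : Equiv.Perm (Fin n) =>
      fun w => LL k F (mw k F σ w)))) =
    Module.finrank F' (Submodule.span F' (Set.range (fun σ : Equiv.Perm (Fin n) =>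
      fun w => LL k F' (mw k F' σ w)))) := by
  have key : ∀ (F : Type) [Field F] [CharZero F],
      Module.finrank F (Submodule.span F (Set.range (fun σ : Equiv.Perm (Fin n) =>
        fun w => LL k F (mw k F σ w)))) =
      Module.finrank F (Submodule.span F (Set.range (fun σ : Equiv.Perm (Fin n) =>
        (fun p => ((vzJ k n σ p : ℤ) : F))))) := by
    intro F _ _
    apply finrank_span_eq_of_map _ _
      ({ toFun := fun h p => h p.1 p.2.1 p.2.2
         map_add' := fun _ _ => rfl
         map_smul' := fun _ _ => rfl } : ((Fin n → Fin k × Fin k) → Matrix (Fin k) (Fin k) F) →ₗ[F]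
          ((Fin n → Fin k × Fin k) × (Fin k × Fin k) → F))
      ({ toFun := fun h w => fun a b => h (w, (a, b))
         map_add' := fun _ _ => rfl
         map_smul' := fun _ _ => rfl } : ((Fin n → Fin k × Fin k) × (Fin k × Fin k) → F) →ₗ[F]
          ((Fin n → Fin k × Fin k) → Matrix (Fin k) (Fin k) F))
    · intro σ
      funext p
      exact LL_eq_cast σ p.1 p.2.1 p.2.2
    · intro σ
      funext w a b
      exact (LL_eq_cast σ w a b).symm
  rw [key F, key F']
  exact rk_eq (vzJ k n) F F'

end Codim

section TC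

/-- `tc` over the reals, in word form -/
theorem tc_eq (k n : ℕ) : tc k n = Module.finrank ℝ (PW (Fin k) ℝ (Fin n)) := by
  classical
  have h1 : tc k n = Module.finrank ℂ (Submodule.span ℂ (Set.range (fun σ : Equiv.Perm (Fin n) =>
      (fun w : Fin n → Fin k × Fin k =>
        (((if ∀ i, (w i).2 = (w (σ i)).1 then 1 else 0 : ℤ)) : ℂ))))) := by
    unfold tc PP
    apply finrank_span_eq_of_map _ _ (zipw ℂ) (unz ℂ)
    · intro σ
      funext w
      show ptw ℂ σ w = _
      by_cases h : ∀ i, (w i).2 = (w (σ i)).1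
      · rw [ptw_eq_one h, if_pos h]; simp
      · rw [if_neg h]
        push Not at h
        obtain ⟨i, hi⟩ := h
        rw [ptw_eq_zero i hi]; simp
    · intro σ
      funext a b
      show (((if ∀ i, (a i, b i).2 = (a (σ i), b (σ i)).1 then 1 else 0 : ℤ)) : ℂ) = pt (Fin k) ℂ σ a b
      unfold pt
      by_cases h : b = a ∘ σ
      · rw [if_pos h, if_pos]
        · simp
        · intro i; exact congrFun h i
      · rw [if_neg h, if_neg]
        · simp
        · intro h'
          exact h (funext h')
  have h2 : Module.finrank ℝ (PW (Fin k) ℝ (Fin n)) =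
      Module.finrank ℝ (Submodule.span ℝ (Set.range (fun σ : Equiv.Perm (Fin n) =>
      (fun w : Fin n → Fin k × Fin k =>
        (((if ∀ i, (w i).2 = (w (σ i)).1 then 1 else 0 : ℤ)) : ℝ))))) := by
    unfold PW
    apply finrank_span_eq_of_map _ _ LinearMap.id LinearMap.id
    · intro σ
      funext w
      show ptw ℝ σ w = _
      by_cases h : ∀ i, (w i).2 = (w (σ i)).1
      · rw [ptw_eq_one h, if_pos h]; simp
      · rw [if_neg h]
        push Not at h
        obtain ⟨i, hi⟩ := h
        rw [ptw_eq_zero i hi]; simp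
    · intro σ
      funext w
      show _ = ptw ℝ σ w
      by_cases h : ∀ i, (w i).2 = (w (σ i)).1
      · rw [ptw_eq_one h]; simp [h]
      · have h' := h
        push Not at h'
        obtain ⟨i, hi⟩ := h'
        rw [ptw_eq_zero i hi]; simp [h]
  rw [h1, h2]
  exact rk_eq (fun (σ : Equiv.Perm (Fin n)) (w : Fin n → Fin k × Fin k) =>
    (if ∀ i, (w i).2 = (w (σ i)).1 then 1 else 0 : ℤ)) ℂ ℝ

end TC

end Pool.Agent.U688
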