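import Pool.Agent.U688.Alt
import Pool.Agent.U688.Avoid

/-!
# The ideal generated by the conductor is large
-/

set_option autoImplicit false

namespace Pool.Agent.U688

open Finset Matrix

section Contr

variable {κ : Type} [Fintype κ] [DecidableEq κ] {R : Type} [Field R]

/-- the two-word form of a function of a word of pairs -/
def unz (R : Type) [Field R] {κ : Type} {ι : Type} :
    ((ι → κ × κ) → R) →ₗ[R] ((ι → κ) → (ι → κ) → R) where
  toFun f := fun a b => f (fun i => (a i, b i))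
  map_add' _ _ := rfl
  map_smul' _ _ := rfl

/-- the word-of-pairs form -/
def zipw (R : Type) [Field R] {κ : Type} {ι : Type} :
    ((ι → κ) → (ι → κ) → R) →ₗ[R] ((ι → κ × κ) → R) where
  toFun f := fun w => f (Prod.fst ∘ w) (Prod.snd ∘ w)
  map_add' _ _ := rfl
  map_smul' _ _ := rfl

lemma unz_mem {ι : Type} {f : (ι → κ × κ) → R} (hf : f ∈ PW κ R ι) : unz R f ∈ PP κ R ι ι := by
  refine map_mem_of_span (unz R) ?_ hf
  rintro _ ⟨σ, rfl⟩
  exact pt_mem σ

lemma zipw_mem {ι : Type} {f : (ι → κ) → (ι → κ) → R} (hf : f ∈ PP κ R ι ι) :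
    zipw R f ∈ PW κ R ι := by
  refine map_mem_of_span (zipw R) ?_ hf
  rintro _ ⟨σ, rfl⟩
  exact ptw_mem σ

/-- contraction with a function on the first block of slots -/
noncomputable def cw {S T : Type} [Fintype S] [DecidableEq S] (f : (S ⊕ T → κ × κ) → R) :
    ((S → κ × κ) → R) →ₗ[R] ((T → κ × κ) → R) where
  toFun g := fun w' => ∑ u : S → κ × κ, g u * f (Sum.elim u w')
  map_add' g g' := by funext w'; simp [add_mul, Finset.sum_add_distrib]
  map_smul' c g := by funext w'; simp [Finset.mul_sum, mul_assoc]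

lemma cw_mem {S T : Type} [Fintype S] [DecidableEq S] {f : (S ⊕ T → κ × κ) → R}
    (hf : f ∈ PW κ R (S ⊕ T)) {g : (S → κ × κ) → R} (hg : g ∈ PW κ R S) : cw f g ∈ PW κ R T := by
  classical
  refine map_mem_of_span (cw f) ?_ hg
  rintro _ ⟨ρ, rfl⟩
  have h1 := reidx_mem (Equiv.refl (S ⊕ T)) (Equiv.sumCongr ρ (Equiv.refl T)) (unz_mem hf)
  have h2 := mcontr_mem S h1
  have h3 := zipw_mem h2
  convert h3 using 1
  funext w'
  show ∑ u : S → κ × κ, ptw R ρ u * f (Sum.elim u w') = ∑ c : S → κ,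
    f (fun i => ((Sum.elim c (Prod.fst ∘ w') ∘ (Equiv.refl (S ⊕ T))) i,
      (Sum.elim c (Prod.snd ∘ w') ∘ (Equiv.sumCongr ρ (Equiv.refl T))) i))
  rw [← Equiv.sum_comp (Equiv.arrowProdEquivProdArrow S (fun _ => κ) (fun _ => κ)).symm, Fintype.sum_prod_type]
  apply Finset.sum_congr rfl
  intro a _
  rw [Finset.sum_eq_single (a ∘ ρ)]
  · rw [ptw_eq_one (fun i => rfl), one_mul]
    congr 1
    funext i
    rcases i with i | i
    · rfl
    · rfl
  · intro b _ hb
    have : ∃ i, b i ≠ a (ρ i) := by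
      by_contra h
      push Not at h
      exact hb (funext h)
    obtain ⟨i, hi⟩ := this
    rw [ptw_eq_zero i hi, zero_mul]
  · intro h; exact absurd (Finset.mem_univ _) h

end Contr

section Ideal

variable {κ : Type} [Fintype κ] [DecidableEq κ] {R : Type} [Field R]

/-- the ideal generated by `g` -/
noncomputable def II {ι₀ : Type} (g : (ι₀ → κ × κ) → R) (ι : Type) :
    Submodule R ((ι → κ × κ) → R) :=
  Submodule.span R {f | ∃ (S : Type) (_ : Finite S) (e : ι₀ ⊕ S ≃ ι) (τ : Equiv.Perm S),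
    f = ren R e (ten g τ)}

lemma II_le_CC [CharZero R] [Nonempty κ] (ι : Type) : II (cap κ R) ι ≤ CC κ R ι := by
  apply Submodule.span_le.mpr
  rintro _ ⟨S, hS, e, τ, rfl⟩
  exact ren_CC e (cap_conductor S τ)

/-- the subspace of `PW` orthogonal to the ideal -/
noncomputable def OO {ι₀ : Type} (g : (ι₀ → κ × κ) → R) (ι : Type) [Fintype ι] [DecidableEq ι] :
    Submodule R ((ι → κ × κ) → R) where
  carrier := {p | p ∈ PW κ R ι ∧ ∀ h ∈ II g ι, ∑ w, p w * h w = 0}
  add_mem' := by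
    rintro p q ⟨hp, hp'⟩ ⟨hq, hq'⟩
    refine ⟨Submodule.add_mem _ hp hq, fun h hh => ?_⟩
    simp only [Pi.add_apply, add_mul, Finset.sum_add_distrib]
    rw [hp' h hh, hq' h hh, add_zero]
  zero_mem' := ⟨Submodule.zero_mem _, fun h _ => by simp⟩
  smul_mem' := by
    rintro c p ⟨hp, hp'⟩
    refine ⟨Submodule.smul_mem _ _ hp, fun h hh => ?_⟩
    simp only [Pi.smul_apply, smul_eq_mul, mul_assoc]
    rw [← Finset.mul_sum, hp' h hh, mul_zero]

lemma finrank_PW_le {ι₀ : Type} (g : (ι₀ → κ × κ) → R) (ι : Type) [Fintype ι] [DecidableEq ι] :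
    Module.finrank R (PW κ R ι) ≤ Module.finrank R (OO g ι) + Module.finrank R (II g ι) := by
  let φ : PW κ R ι →ₗ[R] (Module.Dual R (II g ι)) :=
    { toFun := fun p =>
        { toFun := fun h => ∑ w, p.1 w * h.1 w
          map_add' := fun h h' => by simp [mul_add, Finset.sum_add_distrib]
          map_smul' := fun c h => by simp [Finset.mul_sum, mul_left_comm] }
      map_add' := fun p q => by
        apply LinearMap.ext; intro h; simp [add_mul, Finset.sum_add_distrib]
      map_smul' := fun c p => by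
        apply LinearMap.ext; intro h; simp [Finset.mul_sum, mul_assoc] }
  have h1 := LinearMap.finrank_range_add_finrank_ker φ
  have h2 : Module.finrank R (LinearMap.range φ) ≤ Module.finrank R (II g ι) := by
    rw [← Subspace.dual_finrank_eq (K := R) (V := II g ι)]
    exact Submodule.finrank_le _
  have h3 : Module.finrank R (LinearMap.ker φ) ≤ Module.finrank R (OO g ι) := by
    let ψ : LinearMap.ker φ →ₗ[R] OO g ι :=
      { toFun := fun p => ⟨p.1.1, p.1.2, fun h hh => by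
          have := p.2
          rw [LinearMap.mem_ker] at this
          exact congrArg (fun (F : Module.Dual R (II g ι)) => F ⟨h, hh⟩) this⟩
        map_add' := fun _ _ => rfl
        map_smul' := fun _ _ => rfl }
    apply LinearMap.finrank_le_finrank_of_injective (f := ψ)
    intro p q h
    apply Subtype.ext
    apply Subtype.ext
    exact congrArg (fun x : OO g ι => x.1) h
  omega

end Ideal

section Rel

variable {κ : Type} [Fintype κ] [DecidableEq κ]

/-- elements of `PW` orthogonal to `PW` vanish -/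
lemma eq_zero_of_orth {S : Type} [Fintype S] [DecidableEq S] {q : (S → κ × κ) → ℝ}
    (hq : q ∈ PW κ ℝ S) (h : ∀ τ : Equiv.Perm S, ∑ w, q w * ptw ℝ τ w = 0) : q = 0 := by
  have h1 : ∀ r ∈ PW κ ℝ S, ∑ w, q w * r w = 0 := by
    intro r hr
    induction hr using Submodule.span_induction with
    | mem x hx =>
      obtain ⟨τ, rfl⟩ := hx
      exact h τ
    | zero => simp
    | add x y _ _ hx hy =>
      simp only [Pi.add_apply, mul_add, Finset.sum_add_distrib]
      rw [hx, hy, add_zero]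
    | smul c x _ hx =>
      simp only [Pi.smul_apply, smul_eq_mul, mul_left_comm]
      rw [← Finset.mul_sum, hx, mul_zero]
  have h2 := h1 q hq
  have h3 := (Finset.sum_eq_zero_iff_of_nonneg (fun w _ => mul_self_nonneg (q w))).mp h2
  funext w
  exact mul_self_eq_zero.mp (h3 w (Finset.mem_univ w))

lemma OO_rel {ι₀ : Type} [Fintype ι₀] [DecidableEq ι₀] {g : (ι₀ → κ × κ) → ℝ} (hg : g ∈ PW κ ℝ ι₀)
    {ι : Type} [Fintype ι] [DecidableEq ι] {p : (ι → κ × κ) → ℝ} (hp : p ∈ OO g ι)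
    {S : Type} [Fintype S] [DecidableEq S] (e : ι₀ ⊕ S ≃ ι) (w' : S → κ × κ) :
    ∑ u : ι₀ → κ × κ, g u * p (Sum.elim u w' ∘ e.symm) = 0 := by
  have h1 : cw (ren ℝ e.symm p) g ∈ PW κ ℝ S := cw_mem (ren_PW e.symm hp.1) hg
  have h2 : cw (ren ℝ e.symm p) g = 0 := by
    apply eq_zero_of_orth h1
    intro τ
    have h3 := hp.2 (ren ℝ e (ten g τ)) (Submodule.subset_span ⟨S, inferInstance, e, τ, rfl⟩)
    rw [← Equiv.sum_comp (Equiv.arrowCongr e (Equiv.refl (κ × κ)))] at h3
    rw [← Equiv.sum_comp (Equiv.sumArrowEquivProdArrow ι₀ S (κ × κ)).symm, Fintype.sum_prod_type,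
      Finset.sum_comm] at h3
    rw [← h3]
    apply Finset.sum_congr rfl
    intro w _
    show (∑ u : ι₀ → κ × κ, g u * p (Sum.elim u w ∘ e.symm)) * ptw ℝ τ w = _
    rw [Finset.sum_mul]
    apply Finset.sum_congr rfl
    intro u _
    have e1 : ren ℝ e (ten g τ) ((Equiv.arrowCongr e (Equiv.refl (κ × κ)))
        ((Equiv.sumArrowEquivProdArrow ι₀ S (κ × κ)).symm (u, w))) = g u * ptw ℝ τ w := by
      show ten g τ (((Equiv.arrowCongr e (Equiv.refl (κ × κ))) (Sum.elim u w)) ∘ e) = _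
      have : ((Equiv.arrowCongr e (Equiv.refl (κ × κ))) (Sum.elim u w)) ∘ e = Sum.elim u w := by
        funext x
        simp [Equiv.arrowCongr]
      rw [this]
      rfl
    rw [e1]
    show g u * p (Sum.elim u w ∘ e.symm) * ptw ℝ τ w = p (Sum.elim u w ∘ e.symm) * (g u * ptw ℝ τ w)
    ring
  exact congrFun h2 w'

end Rel

section Main

variable {κ : Type} [Fintype κ] [DecidableEq κ]

lemma mem_PW_cap [Nonempty κ] : cap κ ℝ ∈ PW κ ℝ (CI κ) := CC_le_PW _ cap_mem

/-- The main estimate: the ideal of the conductor has small codimension. -/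
theorem finrank_OO_le {d : ℕ} (hd : Fintype.card (κ × κ) = d) {ι₀ : Type} [Fintype ι₀]
    [DecidableEq ι₀] {g : (ι₀ → κ × κ) → ℝ} (hg : g ∈ PW κ ℝ ι₀) (hg0 : g ≠ 0) :
    ∃ l : List (Fin d), ∀ n : ℕ, Module.finrank ℝ (OO g (Fin n)) ≤ av d l n := by
  classical
  let ν : (κ × κ) ≃ Fin d := Fintype.equivFinOfCardEq hd
  let N := Fintype.card ι₀
  let ε : ι₀ ≃ Fin N := Fintype.equivFin ι₀
  let g' : (Fin N → Fin d) → ℝ := fun v => g (ν.symm ∘ v ∘ ε)
  have hg' : ∃ v, g' v ≠ 0 := by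
    by_contra h
    push Not at h
    apply hg0
    funext u
    have := h (ν ∘ u ∘ ε.symm)
    have e : ν.symm ∘ (ν ∘ u ∘ ε.symm) ∘ ε = u := by funext x; simp
    simp only [g', e] at this
    exact this
  obtain ⟨v0, hv0⟩ := hg'
  obtain ⟨w0, hw0, hmax⟩ := Finset.exists_max_image (Finset.univ.filter (fun v => g' v ≠ 0)) toLex
    ⟨v0, by simpa using hv0⟩
  refine ⟨List.ofFn w0, fun n => ?_⟩
  -- transport of the space
  let L : ((Fin n → κ × κ) → ℝ) ≃ₗ[ℝ] ((Fin n → Fin d) → ℝ) :=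
    LinearEquiv.funCongrLeft ℝ ℝ (Equiv.arrowCongr (Equiv.refl (Fin n)) ν.symm)
  have hL : ∀ p v, L p v = p (ν.symm ∘ v) := fun p v => rfl
  have h1 : Module.finrank ℝ (OO g (Fin n)) = Module.finrank ℝ ((OO g (Fin n)).map L.toLinearMap) :=
    (LinearEquiv.finrank_map_eq L _).symm
  rw [h1]
  apply finrank_le_av g' w0 (by simpa using hw0) (fun u hu => hmax u (by simpa using hu))
  rintro _ ⟨p, hp, rfl⟩ s W
  -- the complement of the range of `s`
  let S := {i : Fin n // i ∉ Set.range s}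
  let e : ι₀ ⊕ S ≃ Fin n :=
    (Equiv.sumCongr (ε.trans (Equiv.ofInjective s s.injective)) (Equiv.refl S)).trans
      (Equiv.sumCompl (fun i => i ∈ Set.range s))
  have he1 : ∀ i, e (Sum.inl i) = s (ε i) := fun i => rfl
  have he2 : ∀ i : S, e (Sum.inr i) = i.1 := fun i => rfl
  have h2 := OO_rel hg hp e (fun i => ν.symm (W i.1))
  rw [← Equiv.sum_comp (Equiv.arrowCongr ε.symm ν.symm)] at h2
  rw [← h2]
  apply Finset.sum_congr rfl
  intro u _
  show g' u * L p (ow s u W) = _
  rw [hL]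
  have e1 : (Equiv.arrowCongr ε.symm ν.symm) u = ν.symm ∘ u ∘ ε := by
    funext x; simp [Equiv.arrowCongr]
  rw [e1]
  show g (ν.symm ∘ u ∘ ε) * p (ν.symm ∘ ow s u W) = g (ν.symm ∘ u ∘ ε) * _
  congr 2
  funext i
  obtain ⟨x, rfl⟩ := e.surjective i
  simp only [Function.comp_apply, Equiv.symm_apply_apply]
  rcases x with x | x
  · rw [he1, Sum.elim_inl]
    unfold ow
    rw [s.injective.extend_apply]
    rfl
  · rw [he2, Sum.elim_inr]
    unfold ow
    rw [Function.extend_apply']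
    intro ⟨a, ha⟩
    exact x.2 ⟨a, ha⟩

end Main

end Pool.Agent.U688
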