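import Mathlib

/-!
# Permutation tensors and their contractions
-/

set_option autoImplicit false

namespace Pool.Agent.U688

open Finset

section Basic

variable {κ : Type} {R : Type} [Field R]

open Classical in
/-- The permutation tensor of a bijection `e : β ≃ α`. -/
noncomputable def pt (κ : Type) (R : Type) [Field R] {α β : Type} (e : β ≃ α) :
    (α → κ) → (β → κ) → R :=
  fun a b => if b = a ∘ e then 1 else 0

/-- The span of all permutation tensors. -/
noncomputable def PP (κ : Type) (R : Type) [Field R] (α β : Type) :
    Submodule R ((α → κ) → (β → κ) → R) :=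
  Submodule.span R (Set.range (pt κ R : (β ≃ α) → _))

lemma pt_mem {α β : Type} (e : β ≃ α) : pt κ R e ∈ PP κ R α β :=
  Submodule.subset_span ⟨e, rfl⟩

lemma map_mem_of_span {V W : Type*} [AddCommGroup V] [Module R V] [AddCommGroup W] [Module R W]
    (L : V →ₗ[R] W) {s : Set V} {p : Submodule R W} (h : ∀ v ∈ s, L v ∈ p) {f : V}
    (hf : f ∈ Submodule.span R s) : L f ∈ p := by
  have : Submodule.span R s ≤ p.comap L := Submodule.span_le.mpr h
  exact this hf

/-- Reindexing of slots. -/
def reidx (R : Type) [Field R] {α β α' β' : Type} (e1 : α ≃ α') (e2 : β ≃ β') :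
    ((α → κ) → (β → κ) → R) →ₗ[R] ((α' → κ) → (β' → κ) → R) where
  toFun f := fun a b => f (a ∘ e1) (b ∘ e2)
  map_add' _ _ := rfl
  map_smul' _ _ := rfl

lemma reidx_pt {α β α' β' : Type} (e1 : α ≃ α') (e2 : β ≃ β') (e : β ≃ α) :
    reidx R e1 e2 (pt κ R e) = pt κ R (e2.symm.trans (e.trans e1)) := by
  classical
  funext a b
  simp only [reidx, pt, LinearMap.coe_mk, AddHom.coe_mk]
  congr 1
  apply propext
  constructor
  · intro h
    funext j
    have := congrFun h (e2.symm j)
    simpa using this
  · intro h
    funext j
    have := congrFun h (e2 j)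
    simpa using this

lemma reidx_mem {α β α' β' : Type} (e1 : α ≃ α') (e2 : β ≃ β')
    {f : (α → κ) → (β → κ) → R} (hf : f ∈ PP κ R α β) : reidx R e1 e2 f ∈ PP κ R α' β' := by
  refine map_mem_of_span (reidx R e1 e2) ?_ hf
  rintro _ ⟨e, rfl⟩
  rw [reidx_pt]
  exact pt_mem _

lemma reidx_mem_iff {α β α' β' : Type} (e1 : α ≃ α') (e2 : β ≃ β')
    {f : (α → κ) → (β → κ) → R} : reidx R e1 e2 f ∈ PP κ R α' β' ↔ f ∈ PP κ R α β := by
  constructor
  · intro h
    have := reidx_mem e1.symm e2.symm h
    have e : reidx R e1.symm e2.symm (reidx R e1 e2 f) = f := by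
      funext a b
      show f ((a ∘ e1.symm) ∘ e1) ((b ∘ e2.symm) ∘ e2) = f a b
      congr 1 <;> (funext x; simp)
    rwa [e] at this
  · exact reidx_mem e1 e2

/-- Tensor product of two tensors. -/
def tens {α β α' β' : Type} (f : (α → κ) → (β → κ) → R) (g : (α' → κ) → (β' → κ) → R) :
    ((α ⊕ α' → κ) → (β ⊕ β' → κ) → R) :=
  fun a b => f (a ∘ Sum.inl) (b ∘ Sum.inl) * g (a ∘ Sum.inr) (b ∘ Sum.inr)

lemma tens_pt {α β α' β' : Type} (e : β ≃ α) (e' : β' ≃ α') :
    tens (pt κ R e) (pt κ R e') = pt κ R (Equiv.sumCongr e e') := by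
  classical
  funext a b
  simp only [tens, pt]
  by_cases h1 : b ∘ Sum.inl = (a ∘ Sum.inl) ∘ e
  · by_cases h2 : b ∘ Sum.inr = (a ∘ Sum.inr) ∘ e'
    · have h3 : b = a ∘ (Equiv.sumCongr e e') := by
        funext j
        rcases j with j | j
        · exact congrFun h1 j
        · exact congrFun h2 j
      rw [if_pos h1, if_pos h2, if_pos h3, one_mul]
    · have h3 : ¬ b = a ∘ (Equiv.sumCongr e e') := by
        intro h3
        apply h2
        funext j
        exact congrFun h3 (Sum.inr j)
      rw [if_neg h2, if_neg h3, mul_zero]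
  · have h3 : ¬ b = a ∘ (Equiv.sumCongr e e') := by
      intro h3
      apply h1
      funext j
      exact congrFun h3 (Sum.inl j)
    rw [if_neg h1, if_neg h3, zero_mul]

/-- `tens` as a bilinear map -/
def tensL {α β α' β' : Type} : ((α → κ) → (β → κ) → R) →ₗ[R] ((α' → κ) → (β' → κ) → R) →ₗ[R]
    ((α ⊕ α' → κ) → (β ⊕ β' → κ) → R) :=
  LinearMap.mk₂ R tens (fun f f' g => by funext a b; simp [tens, add_mul])
    (fun c f g => by funext a b; simp [tens, mul_assoc])
    (fun f g g' => by funext a b; simp [tens, mul_add])
    (fun c f g => by funext a b; simp [tens, mul_left_comm])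

lemma tens_mem {α β α' β' : Type} {f : (α → κ) → (β → κ) → R} {g : (α' → κ) → (β' → κ) → R}
    (hf : f ∈ PP κ R α β) (hg : g ∈ PP κ R α' β') : tens f g ∈ PP κ R (α ⊕ α') (β ⊕ β') := by
  have h1 : ∀ e : β ≃ α, tens (pt κ R e) g ∈ PP κ R (α ⊕ α') (β ⊕ β') := by
    intro e
    refine map_mem_of_span (tensL (pt κ R e)) ?_ hg
    rintro _ ⟨e', rfl⟩
    show tens _ _ ∈ _
    rw [tens_pt]
    exact pt_mem _
  refine map_mem_of_span ((tensL (κ := κ) (R := R) (α := α) (β := β)).flip g) ?_ hf
  rintro _ ⟨e, rfl⟩
  exact h1 e

end Basic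

/-- extend a word on `α` by a letter at `none`. -/
def ox {κ α : Type} (c : κ) (a : α → κ) : Option α → κ := fun o => Option.elim o c a

@[simp] lemma ox_none {κ α : Type} (c : κ) (a : α → κ) : ox c a none = c := rfl
@[simp] lemma ox_some {κ α : Type} (c : κ) (a : α → κ) (i : α) : ox c a (some i) = a i := rfl

/-- `Option γ ⊕ α ≃ Option (γ ⊕ α)` -/
def osEquiv (γ α : Type) : Option γ ⊕ α ≃ Option (γ ⊕ α) where
  toFun x := match x with
    | Sum.inl none => none
    | Sum.inl (some c) => some (Sum.inl c)
    | Sum.inr a => some (Sum.inr a)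
  invFun x := match x with
    | none => Sum.inl none
    | some (Sum.inl c) => Sum.inl (some c)
    | some (Sum.inr a) => Sum.inr a
  left_inv x := by rcases x with (_ | c) | a <;> rfl
  right_inv x := by rcases x with _ | (c | a) <;> rfl

section Contr

variable {κ : Type} [Fintype κ] {R : Type} [Field R]


/-- Contraction of the slots `none`. -/
def contr {α β : Type} :
    ((Option α → κ) → (Option β → κ) → R) →ₗ[R] ((α → κ) → (β → κ) → R) where
  toFun f := fun a b => ∑ c : κ, f (ox c a) (ox c b)
  map_add' f g := by funext a b; simp [Finset.sum_add_distrib]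
  map_smul' c f := by funext a b; simp [Finset.mul_sum]

lemma contr_pt_none {α β : Type} (e : Option β ≃ Option α) (h : e none = none) :
    contr (pt κ R e) = (Fintype.card κ : R) • pt κ R (Equiv.removeNone e) := by
  classical
  funext a b
  simp only [contr, pt, LinearMap.coe_mk, AddHom.coe_mk, Pi.smul_apply, smul_eq_mul]
  have hs : ∀ j : β, some (Equiv.removeNone e j) = e (some j) := by
    intro j
    apply Equiv.removeNone_some
    have : e (some j) ≠ none := by
      intro h'
      rw [← h] at h'
      exact absurd (e.injective h') (by simp)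
    exact Option.ne_none_iff_exists'.mp this
  have key : ∀ c : κ, (ox c b = ox c a ∘ e) ↔ (b = a ∘ (Equiv.removeNone e)) := by
    intro c
    constructor
    · intro hh
      funext j
      have := congrFun hh (some j)
      simp only [ox_some, Function.comp] at this
      rw [← hs j] at this
      simpa using this
    · intro hh
      funext o
      rcases o with _ | j
      · simp [Function.comp, h]
      · simp only [ox_some, Function.comp]
        rw [← hs j, hh]
        simp
  simp only [key]
  rw [Finset.sum_const]
  simp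

lemma contr_pt_some {α β : Type} (e : Option β ≃ Option α) (h : e none ≠ none) :
    contr (pt κ R e) = pt κ R (Equiv.removeNone e) := by
  classical
  funext a b
  simp only [contr, pt, LinearMap.coe_mk, AddHom.coe_mk]
  obtain ⟨i, hi⟩ := Option.ne_none_iff_exists'.mp h
  have hs : ∀ j : β, e (some j) ≠ none → some (Equiv.removeNone e j) = e (some j) := by
    intro j hj
    exact Equiv.removeNone_some _ (Option.ne_none_iff_exists'.mp hj)
  have hn : ∀ j : β, e (some j) = none → Equiv.removeNone e j = i := by
    intro j hj
    have := Equiv.removeNone_none e hj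
    rw [hi] at this
    exact Option.some_injective _ this
  have key : ∀ c : κ, (ox c b = ox c a ∘ e) ↔ (c = a i ∧ b = a ∘ (Equiv.removeNone e)) := by
    intro c
    constructor
    · intro hh
      have hc : c = a i := by
        have := congrFun hh none
        simpa [Function.comp, hi] using this
      refine ⟨hc, ?_⟩
      funext j
      have := congrFun hh (some j)
      simp only [ox_some, Function.comp] at this
      by_cases hj : e (some j) = none
      · rw [hj] at this
        simp only [ox_none] at this
        simp only [Function.comp, hn j hj]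
        rw [this, hc]
      · rw [← hs j hj] at this
        simpa using this
    · rintro ⟨hc, hh⟩
      funext o
      rcases o with _ | j
      · simp [Function.comp, hi, hc]
      · simp only [ox_some, Function.comp]
        by_cases hj : e (some j) = none
        · rw [hj, hh, ox_none, hc]
          simp [hn j hj]
        · rw [← hs j hj, hh]
          simp
  simp only [key]
  by_cases hb : b = a ∘ (Equiv.removeNone e)
  · simp [hb]
  · simp [hb]

lemma contr_mem {α β : Type} {f : (Option α → κ) → (Option β → κ) → R}
    (hf : f ∈ PP κ R (Option α) (Option β)) : contr f ∈ PP κ R α β := by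
  refine map_mem_of_span contr ?_ hf
  rintro _ ⟨e, rfl⟩
  by_cases h : e none = none
  · rw [contr_pt_none e h]
    exact Submodule.smul_mem _ _ (pt_mem _)
  · rw [contr_pt_some e h]
    exact pt_mem _

/-- Multiple contraction. -/
lemma mcontr_mem (γ : Type) [Fintype γ] [DecidableEq γ] {α β : Type}
    {f : (γ ⊕ α → κ) → (γ ⊕ β → κ) → R} (hf : f ∈ PP κ R (γ ⊕ α) (γ ⊕ β)) :
    (fun a b => ∑ c : γ → κ, f (Sum.elim c a) (Sum.elim c b)) ∈ PP κ R α β := by
  classical
  have main : ∀ (γ : Type) [Finite γ], ∀ {α β : Type} (f : (γ ⊕ α → κ) → (γ ⊕ β → κ) → R),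
      f ∈ PP κ R (γ ⊕ α) (γ ⊕ β) →
      (fun a b => ∑ᶠ c : γ → κ, f (Sum.elim c a) (Sum.elim c b)) ∈ PP κ R α β := by
    intro γ hγ
    induction γ using Finite.induction_empty_option with
    | @of_equiv γ γ' eq ih =>
      intro α β f hf
      have h1 := reidx_mem (Equiv.sumCongr eq.symm (Equiv.refl α)) (Equiv.sumCongr eq.symm (Equiv.refl β)) hf
      have h2 := ih _ h1
      convert h2 using 3 with a b
      rw [← finsum_comp_equiv (Equiv.arrowCongr eq (Equiv.refl κ))]
      apply finsum_congr
      intro c
      simp only [reidx, LinearMap.coe_mk, AddHom.coe_mk]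
      congr 1
      · funext x
        rcases x with x | x <;> simp [Equiv.arrowCongr]
      · funext x
        rcases x with x | x <;> simp [Equiv.arrowCongr]
    | h_empty =>
      intro α β f hf
      have h1 := reidx_mem (Equiv.emptySum PEmpty α) (Equiv.emptySum PEmpty β) hf
      convert h1 using 3 with a b
      rw [finsum_unique]
      simp only [reidx, LinearMap.coe_mk, AddHom.coe_mk]
      congr 1
      · funext x
        rcases x with x | x
        · exact x.elim
        · simp
      · funext x
        rcases x with x | x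
        · exact x.elim
        · simp
    | @h_option γ hF ih =>
      intro α β f hf
      have h1 := reidx_mem (R := R) (κ := κ) (osEquiv γ α) (osEquiv γ β) hf
      have h2 := ih _ (contr_mem h1)
      convert h2 using 3 with a b
      have hfin : Fintype γ := Fintype.ofFinite γ
      rw [finsum_eq_sum_of_fintype, finsum_eq_sum_of_fintype]
      simp only [contr, reidx, LinearMap.coe_mk, AddHom.coe_mk]
      rw [← Finset.sum_product', ← Equiv.sum_comp (Equiv.piOptionEquivProd (β := fun _ : Option γ => κ)).symm]
      rw [Finset.univ_product_univ, ← Equiv.sum_comp (Equiv.prodComm _ _)]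
      apply Finset.sum_congr rfl
      intro x _
      congr 1
      · funext o
        rcases o with (_ | o) | o <;> simp [Equiv.piOptionEquivProd, osEquiv]
      · funext o
        rcases o with (_ | o) | o <;> simp [Equiv.piOptionEquivProd, osEquiv]
  have := main γ f hf
  simpa only [finsum_eq_sum_of_fintype] using this

end Contr

end Pool.Agent.U688
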